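import Pool.Agent.Helper57.MCd.St

/-!
# Chapter MC of MP_795d31_lc, module Cnt: number of tuples in relation with a given one
-/

set_option autoImplicit false

open MeasureTheory Filter Topology Finset

namespace Pool.Agent.Helper57.MCd

open Pool.Agent.Helper19.RP

noncomputable section

/-- normalized power sums -/
def Cnt_F {k : ℕ} (m j0 : ℕ) (j : Fin k → ℕ) (a : ℕ) : ℝ :=
  ∑ i, (((j i : ℝ) - j0) / 2 ^ m) ^ a

/-- the cell of a tuple -/
def Cnt_cell {k : ℕ} (m j0 : ℕ) (j j' : Fin k → ℕ) (a : Fin k) : ℤ :=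
  ⌊(2 : ℝ) ^ m * (Cnt_F m j0 j (a.1 + 1) - Cnt_F m j0 j' (a.1 + 1))⌋

theorem Cnt_sum (k : ℕ) : ∑ i : Fin k, (i.1 + 1) = k * (k + 1) / 2 := by
  have h1 : ∑ i : Fin k, (i.1 + 1) = ∑ i ∈ range k, (i + 1) :=
    Fin.sum_univ_eq_sum_range (fun i => i + 1) k
  rw [h1]
  have h2 := Finset.sum_range_succ' (fun i => i) k
  rw [Finset.sum_range_id, add_zero, Nat.add_sub_cancel, mul_comm] at h2
  exact h2.symm

/-- the number of integers between `-B` and `B` -/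
theorem Cnt_icc {B : ℝ} (hB : 0 ≤ B) : ((Icc ⌊-B⌋ ⌊B⌋).card : ℝ) ≤ 2 * B + 2 := by
  rw [Int.card_Icc]
  have h1 : (⌊B⌋ : ℝ) ≤ B := Int.floor_le B
  have h2 : -B - 1 < (⌊-B⌋ : ℝ) := Int.sub_one_lt_floor _
  have h3 : ⌊-B⌋ ≤ ⌊B⌋ := Int.floor_le_floor (by linarith)
  have h4 : 0 ≤ ⌊B⌋ + 1 - ⌊-B⌋ := by omega
  have h5 : (((⌊B⌋ + 1 - ⌊-B⌋).toNat : ℕ) : ℝ) = ((⌊B⌋ + 1 - ⌊-B⌋ : ℤ) : ℝ) := by
    have := Int.toNat_of_nonneg h4
    exact_mod_cast this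
  rw [h5]
  push_cast
  linarith

/-- two tuples in the same cell are close to each other -/
theorem Cnt_close {k q : ℕ} {C : ℝ} (hC : ∀ x y : Fin k → ℝ,
      (∀ i, |x i| ≤ 1) → (∀ i, |y i| ≤ 1) → (∀ i i', i ≠ i' → (1 / 2 ^ q : ℝ) ≤ |y i - x i'|) →
      ∀ ε : ℝ, 0 ≤ ε → (∀ a ∈ Icc 1 k, |∑ i, x i ^ a - ∑ i, y i ^ a| ≤ ε) →
      ∀ i, |x i - y i| ≤ C * ε)
    {m : ℕ} (hqm : q ≤ m) {τ : Fin k → ℕ} (hτ : τ ∈ NA k q) {j0 : ℕ} (hj0 : j0 < 2 ^ m)
    {j u v : Fin k → ℕ}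
    (hu : ∀ i, u i ∈ Ico (τ i * 2 ^ (m - q)) ((τ i + 1) * 2 ^ (m - q)))
    (hv : ∀ i, v i ∈ Ico (τ i * 2 ^ (m - q)) ((τ i + 1) * 2 ^ (m - q)))
    (huv : Cnt_cell m j0 j u = Cnt_cell m j0 j v) (i : Fin k) :
    |(u i : ℝ) - v i| ≤ C := by
  obtain ⟨hτ1, hτ2⟩ := mem_filter.1 hτ
  have hpow : (2 : ℕ) ^ q * 2 ^ (m - q) = 2 ^ m := by rw [← pow_add]; congr 1; omega
  have hN : (0 : ℝ) < 2 ^ m := by positivity
  have hlt : ∀ w : Fin k → ℕ, (∀ i, w i ∈ Ico (τ i * 2 ^ (m - q)) ((τ i + 1) * 2 ^ (m - q))) →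
      ∀ i, w i < 2 ^ m := by
    intro w hw i
    have h1 := (mem_Ico.1 (hw i)).2
    have h2 : τ i < 2 ^ q := mem_range.1 (Fintype.mem_piFinset.1 hτ1 i)
    calc w i < (τ i + 1) * 2 ^ (m - q) := h1
      _ ≤ 2 ^ q * 2 ^ (m - q) := Nat.mul_le_mul_right _ h2
      _ = 2 ^ m := hpow
  have habs : ∀ w : Fin k → ℕ, (∀ i, w i ∈ Ico (τ i * 2 ^ (m - q)) ((τ i + 1) * 2 ^ (m - q))) →
      ∀ i, |((w i : ℝ) - j0) / 2 ^ m| ≤ 1 := by
    intro w hw i
    rw [abs_div, abs_of_pos hN, div_le_one hN, abs_le]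
    have h1 : (w i : ℝ) < 2 ^ m := by exact_mod_cast hlt w hw i
    have h2 : (j0 : ℝ) < 2 ^ m := by exact_mod_cast hj0
    have h3 : (0 : ℝ) ≤ w i := Nat.cast_nonneg _
    have h4 : (0 : ℝ) ≤ j0 := Nat.cast_nonneg _
    constructor <;> linarith
  -- separation
  have hsep : ∀ a b : ℕ, ∀ w w' : ℕ, a + 2 ≤ b → w < (a + 1) * 2 ^ (m - q) →
      b * 2 ^ (m - q) ≤ w' → (1 / 2 ^ q : ℝ) ≤ ((w' : ℝ) - w) / 2 ^ m := by
    intro a b w w' hab hw hw'
    have h1 : w + 2 ^ (m - q) ≤ w' := by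
      calc w + 2 ^ (m - q) ≤ (a + 1) * 2 ^ (m - q) + 2 ^ (m - q) := by omega
        _ = (a + 2) * 2 ^ (m - q) := by ring
        _ ≤ b * 2 ^ (m - q) := Nat.mul_le_mul_right _ hab
        _ ≤ w' := hw'
    have h2 : (w : ℝ) + 2 ^ (m - q) ≤ w' := by exact_mod_cast h1
    have h3 : (2 : ℝ) ^ q * 2 ^ (m - q) = 2 ^ m := by exact_mod_cast hpow
    rw [div_le_div_iff₀ (by positivity) hN, ← h3]
    have h4 : (0 : ℝ) < 2 ^ q := by positivity
    nlinarith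
  have hkey := hC (fun i => ((u i : ℝ) - j0) / 2 ^ m) (fun i => ((v i : ℝ) - j0) / 2 ^ m)
    (habs u hu) (habs v hv) ?_ (1 / 2 ^ m) (by positivity) ?_ i
  · have h1 : ((u i : ℝ) - j0) / 2 ^ m - ((v i : ℝ) - j0) / 2 ^ m = ((u i : ℝ) - v i) / 2 ^ m := by
      ring
    rw [h1, abs_div, abs_of_pos hN, mul_one_div] at hkey
    exact (div_le_div_iff_of_pos_right hN).1 hkey
  · intro i i' hii'
    have h1 : ((v i : ℝ) - j0) / 2 ^ m - ((u i' : ℝ) - j0) / 2 ^ m =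
        ((v i : ℝ) - u i') / 2 ^ m := by ring
    rw [h1]
    rcases hτ2 i i' hii' with h2 | h2
    · have h3 := hsep _ _ _ _ h2 (mem_Ico.1 (hv i)).2 (mem_Ico.1 (hu i')).1
      refine h3.trans ?_
      rw [show ((u i' : ℝ) - v i) / 2 ^ m = -(((v i : ℝ) - u i') / 2 ^ m) by ring]
      exact neg_le_abs _
    · have h3 := hsep _ _ _ _ h2 (mem_Ico.1 (hu i')).2 (mem_Ico.1 (hv i)).1
      exact h3.trans (le_abs_self _)
  · intro a ha
    obtain ⟨ha1, ha2⟩ := mem_Icc.1 ha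
    have h1 := congrFun huv ⟨a - 1, by omega⟩
    simp only [Cnt_cell] at h1
    have h2 := Int.abs_sub_lt_one_of_floor_eq_floor h1
    rw [Nat.sub_add_cancel ha1] at h2
    have h3 : (2 : ℝ) ^ m * (Cnt_F m j0 j a - Cnt_F m j0 u a) -
        2 ^ m * (Cnt_F m j0 j a - Cnt_F m j0 v a) =
        -(2 ^ m * (Cnt_F m j0 u a - Cnt_F m j0 v a)) := by ring
    rw [h3, abs_neg, abs_mul, abs_of_pos hN] at h2
    have h4 : |Cnt_F m j0 u a - Cnt_F m j0 v a| ≤ 1 / 2 ^ m := by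
      rw [le_div_iff₀ hN, mul_comm]
      exact h2.le
    exact h4

theorem Cnt_main (h : StSep) : StCnt := by
  intro k q C1 hk hC1
  obtain ⟨C, hC, hsep⟩ := h k (1 / 2 ^ q) (by positivity)
  set K : ℕ := ⌊C⌋₊ with hK
  refine ⟨(2 * K + 1 : ℕ) ^ k * (2 * C1 + 2) ^ k, by positivity, ?_⟩
  intro m l hqm hkl τ hτ j0 hj0 j T hT hrel
  have hN : (0 : ℝ) < 2 ^ m := by positivity
  have hlm : ∀ a ∈ Icc 1 k, l * a ≤ m := fun a ha =>
    (Nat.mul_le_mul_left _ (mem_Icc.1 ha).2).trans (by rwa [mul_comm])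
  -- the fibres
  have hfib : ∀ a ∈ T.image (Cnt_cell m j0 j),
      (T.filter fun x => Cnt_cell m j0 j x = a).card ≤ (2 * K + 1) ^ k := by
    intro a ha
    obtain ⟨v, hv, hva⟩ := mem_image.1 ha
    have hsub : (T.filter fun x => Cnt_cell m j0 j x = a) ⊆
        Fintype.piFinset fun i => Icc (v i - K) (v i + K) := by
      intro u hu
      obtain ⟨hu1, hu2⟩ := mem_filter.1 hu
      rw [Fintype.mem_piFinset]
      intro i
      have h1 := Cnt_close hsep hqm hτ hj0 (j := j) (hT u hu1) (hT v hv) (hu2.trans hva.symm) i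
      rw [mem_Icc]
      have h2 : |(u i : ℤ) - v i| ≤ K := by
        have h3 : (((|(u i : ℤ) - v i|).toNat : ℕ) : ℝ) ≤ C := by
          have h4 : (((|(u i : ℤ) - v i|).toNat : ℕ) : ℝ) = |(u i : ℝ) - v i| := by
            have h5 : (((|(u i : ℤ) - v i|).toNat : ℕ) : ℤ) = |(u i : ℤ) - v i| :=
              Int.toNat_of_nonneg (abs_nonneg _)
            have h6 : (((|(u i : ℤ) - v i|).toNat : ℕ) : ℝ) = ((|(u i : ℤ) - v i| : ℤ) : ℝ) := by
              exact_mod_cast h5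
            rw [h6]
            push_cast
            rfl
          rw [h4]
          exact h1
        have h7 : (|(u i : ℤ) - v i|).toNat ≤ K := Nat.le_floor h3
        omega
      rw [abs_le] at h2
      constructor <;> omega
    refine (card_le_card hsub).trans ?_
    rw [Fintype.card_piFinset]
    calc ∏ i, (Icc (v i - K) (v i + K)).card ≤ ∏ _i : Fin k, (2 * K + 1) := by
          refine Finset.prod_le_prod' fun i _ => ?_
          rw [Nat.card_Icc]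
          omega
      _ = (2 * K + 1) ^ k := by simp
  -- the number of cells
  have hcell : ((T.image (Cnt_cell m j0 j)).card : ℝ) ≤
      (2 * C1 + 2) ^ k * (2 ^ (k * m) / 2 ^ (l * (k * (k + 1) / 2))) := by
    have hsub : T.image (Cnt_cell m j0 j) ⊆ Fintype.piFinset fun a : Fin k =>
        Icc ⌊-(C1 * 2 ^ m / 2 ^ (l * (a.1 + 1)))⌋ ⌊C1 * 2 ^ m / 2 ^ (l * (a.1 + 1))⌋ := by
      intro c hc
      obtain ⟨u, hu, rfl⟩ := mem_image.1 hc
      rw [Fintype.mem_piFinset]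
      intro a
      have ha : a.1 + 1 ∈ Icc 1 k := mem_Icc.2 ⟨by omega, a.2⟩
      have h1 := hrel u hu (a.1 + 1) ha
      have h2 : (2 : ℝ) ^ m * (Cnt_F m j0 j (a.1 + 1) - Cnt_F m j0 u (a.1 + 1)) =
          2 ^ m / (2 ^ m) ^ (a.1 + 1) *
            ∑ i, (((j i : ℝ) - j0) ^ (a.1 + 1) - ((u i : ℝ) - j0) ^ (a.1 + 1)) := by
        rw [Cnt_F, Cnt_F, ← Finset.sum_sub_distrib, div_mul_eq_mul_div, mul_div_assoc,
          Finset.sum_div]
        congr 1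
        refine Finset.sum_congr rfl fun i _ => ?_
        rw [div_pow, div_pow, sub_div]
      have h3 : |(2 : ℝ) ^ m * (Cnt_F m j0 j (a.1 + 1) - Cnt_F m j0 u (a.1 + 1))| ≤
          C1 * 2 ^ m / 2 ^ (l * (a.1 + 1)) := by
        rw [h2, abs_mul, abs_of_pos (by positivity)]
        calc (2 : ℝ) ^ m / (2 ^ m) ^ (a.1 + 1) *
              |∑ i, (((j i : ℝ) - j0) ^ (a.1 + 1) - ((u i : ℝ) - j0) ^ (a.1 + 1))|
            ≤ (2 : ℝ) ^ m / (2 ^ m) ^ (a.1 + 1) * (C1 * ((2 ^ (m - l) : ℕ) : ℝ) ^ (a.1 + 1)) := by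
              gcongr
          _ = C1 * 2 ^ m / 2 ^ (l * (a.1 + 1)) := by
              have hl : l ≤ m := by
                have := hlm 1 (mem_Icc.2 ⟨le_rfl, hk⟩)
                simpa using this
              have h4 : ((2 : ℝ) ^ m) ^ (a.1 + 1) = ((2 : ℝ) ^ (m - l)) ^ (a.1 + 1) *
                  2 ^ (l * (a.1 + 1)) := by
                rw [pow_mul, ← mul_pow, ← pow_add]
                congr 2
                omega
              rw [h4]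
              push_cast
              field_simp
      rw [abs_le] at h3
      rw [mem_Icc, Cnt_cell]
      exact ⟨Int.floor_le_floor h3.1, Int.floor_le_floor h3.2⟩
    have h1 : ((T.image (Cnt_cell m j0 j)).card : ℝ) ≤ ∏ a : Fin k,
        ((Icc ⌊-(C1 * 2 ^ m / 2 ^ (l * (a.1 + 1)))⌋ ⌊C1 * 2 ^ m / 2 ^ (l * (a.1 + 1))⌋).card : ℝ) := by
      have := card_le_card hsub
      rw [Fintype.card_piFinset] at this
      exact_mod_cast this
    refine h1.trans ?_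
    have h2 : ∏ a : Fin k,
        ((Icc ⌊-(C1 * 2 ^ m / 2 ^ (l * (a.1 + 1)))⌋ ⌊C1 * 2 ^ m / 2 ^ (l * (a.1 + 1))⌋).card : ℝ) ≤
        ∏ a : Fin k, ((2 * C1 + 2) * (2 ^ m / 2 ^ (l * (a.1 + 1)))) := by
      refine Finset.prod_le_prod (fun _ _ => Nat.cast_nonneg _) fun a _ => ?_
      refine (Cnt_icc (by positivity)).trans ?_
      have h3 : (1 : ℝ) ≤ 2 ^ m / 2 ^ (l * (a.1 + 1)) := by
        rw [le_div_iff₀ (by positivity), one_mul]
        exact pow_le_pow_right₀ (by norm_num) (hlm _ (mem_Icc.2 ⟨by omega, a.2⟩))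
      calc 2 * (C1 * 2 ^ m / 2 ^ (l * (a.1 + 1))) + 2 =
            2 * C1 * (2 ^ m / 2 ^ (l * (a.1 + 1))) + 2 * 1 := by ring
        _ ≤ 2 * C1 * (2 ^ m / 2 ^ (l * (a.1 + 1))) + 2 * (2 ^ m / 2 ^ (l * (a.1 + 1))) := by
            gcongr
        _ = _ := by ring
    refine h2.trans (le_of_eq ?_)
    rw [Finset.prod_mul_distrib, Finset.prod_div_distrib, Finset.prod_const, Finset.prod_const,
      card_univ, Fintype.card_fin, Finset.prod_pow_eq_pow_sum, ← Finset.mul_sum, Cnt_sum,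
      ← pow_mul, mul_comm m k]
  have hcard : (T.card : ℝ) ≤ (2 * K + 1 : ℕ) ^ k * (T.image (Cnt_cell m j0 j)).card := by
    exact_mod_cast Finset.card_le_mul_card_image T _ hfib
  calc (T.card : ℝ) ≤ (2 * K + 1 : ℕ) ^ k * (T.image (Cnt_cell m j0 j)).card := hcard
    _ ≤ (2 * K + 1 : ℕ) ^ k * ((2 * C1 + 2) ^ k * (2 ^ (k * m) / 2 ^ (l * (k * (k + 1) / 2)))) := by
        gcongr
    _ = _ := by ring

end

end Pool.Agent.Helper57.MCd
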