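import Pool.Agent.Helper57.MCd.TSlem

/-!
# Chapter MC of MP_795d31_lc, module Cross: vanishing of cross terms
-/

set_option autoImplicit false

open MeasureTheory Filter Topology Finset

namespace Pool.Agent.Helper57.MCd

open Pool.Agent.Helper19.RP

noncomputable section

theorem Cross_main (hG : StGeo) : StCross := by
  intro k s A hk hA
  obtain ⟨C1, hC1, hgeo⟩ := hG k s A hk hA
  refine ⟨C1, hC1, ?_⟩
  intro m l hkl n pr μ hμ t r hr hvan f hfam b hb j j' hj hj' hrel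
  have := hμ
  -- the block
  set L := 2 ^ (m - l) with hL
  have hlm : l ≤ m := le_trans (by nlinarith) hkl
  have hbl : (b + 1) * L ≤ 2 ^ m := by
    calc (b + 1) * L ≤ 2 ^ l * L := Nat.mul_le_mul_right _ hb
      _ = 2 ^ m := by rw [hL, ← pow_add]; congr 1; omega
  -- frequency sets
  let SB : Set (E n) := {z | ∃ h : ℕ, b * L ≤ h ∧ h < (b + 1) * L ∧
    pr z ∈ box k A (t + (h : ℝ) * r) r}
  have hB : TS SB (fun x => bz (fun h => f h x) L b) := by
    unfold bz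
    refine TS_sum _ fun h hh => ?_
    rw [Finset.mem_Ico] at hh
    refine TS_mono (hfam h (lt_of_lt_of_le hh.2 hbl)) ?_
    intro z hz
    exact ⟨h, hh.1, hh.2, hz⟩
  have hside : ∀ j : Fin k → ℕ, (∀ i, j i < 2 ^ m) →
      TS {z : E n | ∃ (ξ : Fin k → E k) (η : Fin s → E k),
        (∀ i, ξ i ∈ box k A (t + (j i : ℝ) * r) r) ∧
        (∀ u, ∃ h : ℕ, b * L ≤ h ∧ h < (b + 1) * L ∧ η u ∈ box k A (t + (h : ℝ) * r) r) ∧
        pr z = ∑ i, ξ i + ∑ u, η u}
      (fun x => (∏ i, f (j i) x) * bz (fun h => f h x) L b ^ s) := by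
    intro j hj
    refine TS_mul (TS_prod fun i => hfam (j i) (hj i)) (TS_pow s hB) ?_
    rintro x ⟨ξ, hξ, rfl⟩ y ⟨η, hη, rfl⟩
    refine ⟨fun i => pr (ξ i), fun u => pr (η u), hξ, hη, ?_⟩
    rw [map_add, map_sum, map_sum]
  have h1 := hside j hj
  have h2 := TS_conj (hside j' hj') (U := {z : E n | ∃ (ξ : Fin k → E k) (η : Fin s → E k),
        (∀ i, ξ i ∈ box k A (t + (j' i : ℝ) * r) r) ∧
        (∀ u, ∃ h : ℕ, b * L ≤ h ∧ h < (b + 1) * L ∧ η u ∈ box k A (t + (h : ℝ) * r) r) ∧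
        pr z = -(∑ i, ξ i + ∑ u, η u)}) (by
      rintro x ⟨ξ, η, hξ, hη, hx⟩
      refine ⟨ξ, η, hξ, hη, ?_⟩
      rw [map_neg, hx])
  have h3 := TS_mul h1 h2 (U := {z : E n | pr z ∉ dbox k A (t + ((b * L : ℕ) : ℝ) * r) r}) (by
      rintro x ⟨ξ, η, hξ, hη, hx⟩ y ⟨ξ', η', hξ', hη', hy⟩ hmem
      refine hrel (hgeo m l hkl t r hr b hb j j' hj hj' ξ ξ' hξ hξ' η η' hη hη' ?_)
      rw [map_add, hx, hy, ← sub_eq_add_neg] at hmem
      exact hmem)
  refine TS_integral_zero h3 μ fun z hz => hvan z ⟨b * L, ?_, ?_⟩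
  · have hLpos : 0 < L := by positivity
    nlinarith
  · exact hz

end

end Pool.Agent.Helper57.MCd
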