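import Pool.Agent.Helper57.MCd.St

/-!
# Chapter MC of MP_795d31_lc: end of the chapter
-/

set_option autoImplicit false

open MeasureTheory Filter Topology Finset

namespace Pool.Agent.Helper57.MCd

open Pool.Agent.Helper19.RP

noncomputable section

lemma Fin_mono {k : ℕ} {A : ℝ} {p N : ℕ} {D D' : ℝ} (h : D ≤ D') (hD : DecP k A p N D) :
    DecP k A p N D' := by
  intro n pr μ hμ t s hs hv f hf
  refine (hD n pr μ hμ t s hs hv f hf).trans ?_
  apply mul_le_mul_of_nonneg_right h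
  exact Finset.sum_nonneg fun j _ => integral_nonneg fun x => by positivity

theorem Fin_main (h1 : StRec) (h2 : StTriv) (h3 : StNum) : StFin := by
  intro k hk A hA lam hlam
  obtain ⟨p1, hp1⟩ := exists_nat_ge ((k : ℝ) ^ 4 / lam)
  refine ⟨p1 + k * (k + 1) + 2 * k + 2, fun p hp hpe => ?_⟩
  obtain ⟨P, hP⟩ := hpe
  obtain ⟨s, rfl⟩ : ∃ s, P = s + k := ⟨P - k, by omega⟩
  have hps : p = 2 * (s + k) := by omega
  subst hps
  have hs : 1 ≤ s := by omega
  set e : ℝ := 2 * (s + k) - 1 - (k : ℝ) * (k + 1) / 2 + lam with he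
  have hkR : (1 : ℝ) ≤ k := by exact_mod_cast hk
  have hbig : (p1 : ℝ) + k * (k + 1) + 2 * k + 2 ≤ 2 * (s + k) := by
    exact_mod_cast hp
  have hp1n : (0 : ℝ) ≤ p1 := by positivity
  have hk4 : (k : ℝ) ^ 4 ≤ lam * (2 * (s + k)) := by
    have : (k : ℝ) ^ 4 ≤ lam * p1 := by
      rw [div_le_iff₀ hlam] at hp1; linarith [mul_comm (p1 : ℝ) lam]
    have h' : lam * p1 ≤ lam * (2 * (s + k)) := by
      apply mul_le_mul_of_nonneg_left _ hlam.le
      nlinarith
    linarith
  have he0 : 0 < e := by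
    rw [he]; nlinarith
  have hee : e = 2 * (s + k) - 1 - (k : ℝ) * (k + 1) / 2 + lam := he
  -- the number of levels in the narrow step
  obtain ⟨q, hq⟩ : ∃ q : ℕ, (4 * (k : ℝ)) ^ (2 * (s + k)) * 2 ≤ (2 : ℝ) ^ (e * q) := by
    have hb : (1 : ℝ) < (2 : ℝ) ^ e := Real.one_lt_rpow (by norm_num) he0
    obtain ⟨q, hq⟩ := pow_unbounded_of_one_lt ((4 * (k : ℝ)) ^ (2 * (s + k)) * 2) hb
    refine ⟨q, ?_⟩
    rw [Real.rpow_mul (by norm_num), Real.rpow_natCast]
    exact hq.le
  obtain ⟨C0, hC0, hrec⟩ := h1 k (q + 1) s A hk hs hA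
  obtain ⟨C1, hC1, hnum⟩ := h3 k s lam e hk hs hlam hk4 hee C0 hC0
  set C : ℝ := max C1 ((2 : ℝ) ^ ((k + q + 1) * (2 * (s + k) - 1))) with hC
  have hCpos : 0 < C := lt_of_lt_of_le hC1 (le_max_left _ _)
  refine ⟨C, hCpos, fun M => ?_⟩
  have heq : ((((2 * (s + k) : ℕ) : ℝ)) - 1 - (k : ℝ) * (k + 1) / 2 + lam) = e := by
    rw [he]; push_cast; ring
  rw [heq]
  induction M using Nat.strong_induction_on with
  | _ M ih =>
    by_cases hM : M < k + q + 1
    · refine Fin_mono ?_ (h2 k A (2 * (s + k)) M (by omega))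
      have h1' : (2 : ℝ) ^ (M * (2 * (s + k) - 1)) ≤ C := by
        refine le_trans ?_ (le_max_right _ _)
        apply pow_le_pow_right₀ (by norm_num)
        exact Nat.mul_le_mul_right _ hM.le
      have h2' : (1 : ℝ) ≤ (2 : ℝ) ^ (e * M) := by
        apply Real.one_le_rpow (by norm_num)
        positivity
      calc (2 : ℝ) ^ (M * (2 * (s + k) - 1)) ≤ C := h1'
        _ = C * 1 := by ring
        _ ≤ C * (2 : ℝ) ^ (e * M) := mul_le_mul_of_nonneg_left h2' hCpos.le
    · push Not at hM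
      set l : ℕ := M / k with hl
      have hl1 : 1 ≤ l := by
        rw [hl]; exact (Nat.one_le_div_iff (by omega)).mpr (by omega)
      have hkl : k * l ≤ M := by rw [hl]; exact Nat.mul_div_le M k
      have hkl2 : M < k * (l + 1) := by
        rw [hl]; exact Nat.lt_mul_div_succ M (by omega)
      have hlM : l ≤ M := le_trans (Nat.le_mul_of_pos_left l (by omega)) hkl
      have hD1 := ih (M - (q + 1)) (by omega)
      have hD2 := ih (M - l) (by omega)
      have hstep := hrec M l (by omega) hkl (C * (2 : ℝ) ^ (e * ((M - (q + 1) : ℕ) : ℝ)))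
        (C * (2 : ℝ) ^ (e * ((M - l : ℕ) : ℝ))) (by positivity) (by positivity) hD1 hD2
      refine Fin_mono ?_ hstep
      have hn := hnum C (le_max_left _ _) M l hkl hkl2
      have hnar : (4 * (k : ℝ)) ^ (2 * (s + k)) * (C * (2 : ℝ) ^ (e * ((M - (q + 1) : ℕ) : ℝ))) ≤
          C / 2 * (2 : ℝ) ^ (e * M) := by
        have h3' : (2 : ℝ) ^ (e * M) = (2 : ℝ) ^ (e * ((M - (q + 1) : ℕ) : ℝ)) *
            (2 : ℝ) ^ (e * ((q + 1 : ℕ) : ℝ)) := by
          rw [← Real.rpow_add (by norm_num)]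
          congr 1
          rw [Nat.cast_sub (by omega)]
          ring
        have h4 : (2 : ℝ) ^ (e * (q : ℝ)) ≤ (2 : ℝ) ^ (e * ((q + 1 : ℕ) : ℝ)) := by
          apply Real.rpow_le_rpow_of_exponent_le (by norm_num)
          apply mul_le_mul_of_nonneg_left _ he0.le
          push_cast; linarith
        rw [h3']
        have h5 : 0 < (2 : ℝ) ^ (e * ((M - (q + 1) : ℕ) : ℝ)) := by positivity
        nlinarith [mul_pos hCpos h5, mul_le_mul_of_nonneg_left (hq.trans h4) (mul_pos hCpos h5).le]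
      linarith

end

end Pool.Agent.Helper57.MCd
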