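import Pool.Agent.Helper57.MCd.St

/-!
# Chapter MC of MP_795d31_lc: module Geo
-/

set_option autoImplicit false

open MeasureTheory Filter Topology Finset

namespace Pool.Agent.Helper57.MCd

open Pool.Agent.Helper19.RP

/-- The linear part of the functional `sh`. -/
noncomputable def Geo_L (k : ℕ) (c : ℝ) (a : ℕ) : E k →ₗ[ℝ] ℝ :=
  ∑ b : Fin k, ((a.choose (b.1 + 1) : ℝ) * (-c) ^ (a - (b.1 + 1))) • LinearMap.proj b

theorem Geo_L_apply (k : ℕ) (c : ℝ) (a : ℕ) (y : E k) :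
    Geo_L k c a y = ∑ b : Fin k, (a.choose (b.1 + 1) : ℝ) * (-c) ^ (a - (b.1 + 1)) * y b := by
  simp [Geo_L, LinearMap.sum_apply]

theorem Geo_mom {k a : ℕ} (ha : a ≤ k) (c t : ℝ) :
    (-c) ^ a + Geo_L k c a (mom k t) = (t - c) ^ a := by
  rw [Geo_L_apply]
  set f : ℕ → ℝ := fun i => (a.choose i : ℝ) * (-c) ^ (a - i) * t ^ i with hf
  have h1 : ∑ b : Fin k, (a.choose (b.1 + 1) : ℝ) * (-c) ^ (a - (b.1 + 1)) * mom k t b =
      ∑ b ∈ range k, f (b + 1) := by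
    rw [Finset.sum_range]
    rfl
  have h2 : (-c) ^ a = f 0 := by simp [hf]
  rw [h1, h2, add_comm, ← Finset.sum_range_succ']
  have h3 : ∑ i ∈ range (k + 1), f i = ∑ i ∈ range (a + 1), f i := by
    symm
    apply Finset.sum_subset
    · intro i hi
      rw [Finset.mem_range] at hi ⊢
      omega
    · intro i _ hi
      rw [Finset.mem_range] at hi
      rw [hf]
      dsimp only
      rw [Nat.choose_eq_zero_of_lt (by omega)]
      simp
  rw [h3, sub_eq_add_neg, add_pow]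
  refine Finset.sum_congr rfl fun i _ => ?_
  rw [hf]
  ring

theorem Geo_fr {k a : ℕ} (ha : a ≤ k) (c t : ℝ) (i : Fin k) :
    Geo_L k c a (fr k t i) = (a.choose (i.1 + 1) : ℝ) * (t - c) ^ (a - (i.1 + 1)) := by
  rw [Geo_L_apply]
  set g : ℕ → ℝ := fun b => (a.choose (b + 1) : ℝ) * (-c) ^ (a - (b + 1)) *
    (((b + 1).choose (i.1 + 1) : ℝ) * t ^ (b - i.1)) with hg
  have h1 : ∑ b : Fin k, (a.choose (b.1 + 1) : ℝ) * (-c) ^ (a - (b.1 + 1)) * fr k t i b =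
      ∑ b ∈ range k, g b := by
    rw [Finset.sum_range]
    rfl
  rw [h1]
  by_cases hai : a < i.1 + 1
  · rw [Nat.choose_eq_zero_of_lt hai, Nat.cast_zero, zero_mul]
    apply Finset.sum_eq_zero
    intro b _
    rw [hg]
    dsimp only
    by_cases hb : b + 1 ≤ a
    · rw [Nat.choose_eq_zero_of_lt (show b + 1 < i.1 + 1 by omega)]
      simp
    · rw [Nat.choose_eq_zero_of_lt (show a < b + 1 by omega)]
      simp
  · push Not at hai
    have h2 : ∑ b ∈ range k, g b = ∑ b ∈ Ico i.1 a, g b := by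
      symm
      apply Finset.sum_subset
      · intro b hb
        rw [Finset.mem_Ico] at hb
        rw [Finset.mem_range]
        omega
      · intro b _ hb
        rw [Finset.mem_Ico] at hb
        rw [hg]
        dsimp only
        by_cases hb1 : b < i.1
        · rw [Nat.choose_eq_zero_of_lt (show b + 1 < i.1 + 1 by omega)]
          simp
        · rw [Nat.choose_eq_zero_of_lt (show a < b + 1 by omega)]
          simp
    rw [h2, Finset.sum_Ico_eq_sum_range, sub_eq_add_neg, add_pow, Finset.mul_sum]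
    have h3 : a - i.1 = a - (i.1 + 1) + 1 := by omega
    rw [h3]
    refine Finset.sum_congr rfl fun j hj => ?_
    rw [Finset.mem_range] at hj
    have h4 : (a.choose (i.1 + j + 1)) * ((i.1 + j + 1).choose (i.1 + 1)) =
        (a.choose (i.1 + 1)) * ((a - (i.1 + 1)).choose j) := by
      rw [Nat.choose_mul (by omega)]
      congr 2
      omega
    have h4' : ((a.choose (i.1 + j + 1) : ℕ) : ℝ) * ((i.1 + j + 1).choose (i.1 + 1) : ℕ) =
        (a.choose (i.1 + 1) : ℕ) * ((a - (i.1 + 1)).choose j : ℕ) := by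
      exact_mod_cast h4
    have h5 : a - (i.1 + j + 1) = a - (i.1 + 1) - j := by omega
    have h6 : i.1 + j - i.1 = j := by omega
    rw [hg]
    dsimp only
    rw [h5, h6]
    linear_combination ((-c) ^ (a - (i.1 + 1) - j) * t ^ j) * h4'

/-- The binomial estimate. -/
theorem Geo_bin {k a : ℕ} (ha : a ≤ k) (x r : ℝ) :
    ∑ i : Fin k, (a.choose (i.1 + 1) : ℝ) * x ^ (a - (i.1 + 1)) * r ^ (i.1 + 1) =
      (x + r) ^ a - x ^ a := by
  have h := Geo_mom ha (-x) r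
  rw [Geo_L_apply, neg_neg] at h
  have h2 : (r - -x) ^ a = (x + r) ^ a := by ring
  rw [h2] at h
  have h3 : ∑ b : Fin k, (a.choose (b.1 + 1) : ℝ) * x ^ (a - (b.1 + 1)) * mom k r b =
    ∑ i : Fin k, (a.choose (i.1 + 1) : ℝ) * x ^ (a - (i.1 + 1)) * r ^ (i.1 + 1) := rfl
  rw [h3] at h
  linarith

theorem Geo_lin {k a : ℕ} (ha : a ≤ k) {A : ℝ} (hA : 0 ≤ A) (c t r : ℝ) (y : E k)
    (hy : ∀ i, |y i| ≤ A * r ^ (i.1 + 1)) (hr : 0 ≤ r) :
    |Geo_L k c a (∑ i, y i • fr k t i)| ≤ A * ((|t - c| + r) ^ a - |t - c| ^ a) := by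
  rw [map_sum, ← Geo_bin ha, Finset.mul_sum]
  refine (Finset.abs_sum_le_sum_abs _ _).trans (Finset.sum_le_sum fun i _ => ?_)
  rw [map_smul, Geo_fr ha, smul_eq_mul, abs_mul, abs_mul, abs_pow, Nat.abs_cast]
  calc |y i| * ((a.choose (i.1 + 1) : ℝ) * |t - c| ^ (a - (i.1 + 1)))
      ≤ (A * r ^ (i.1 + 1)) * ((a.choose (i.1 + 1) : ℝ) * |t - c| ^ (a - (i.1 + 1))) := by
        gcongr
        exact hy i
    _ = _ := by ring

theorem Geo_box {k a : ℕ} (ha : a ≤ k) {A : ℝ} (hA : 0 ≤ A) (c t r : ℝ) (hr : 0 ≤ r) (ξ : E k)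
    (h : ξ ∈ box k A t r) :
    |(-c) ^ a + Geo_L k c a ξ - (t - c) ^ a| ≤ A * ((|t - c| + r) ^ a - |t - c| ^ a) := by
  obtain ⟨y, hy, rfl⟩ := h
  have h1 := Geo_lin ha hA c t r y hy hr
  rw [map_add, ← Geo_mom ha c t]
  have h2 : (-c) ^ a + (Geo_L k c a (mom k t) + Geo_L k c a (∑ i, y i • fr k t i)) -
    ((-c) ^ a + Geo_L k c a (mom k t)) = Geo_L k c a (∑ i, y i • fr k t i) := by ring
  rw [h2]
  exact h1

theorem Geo_pow {x : ℝ} (hx : 0 ≤ x) (a : ℕ) :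
    (x + 1) ^ a - x ^ a ≤ a * (x + 1) ^ (a - 1) := by
  rcases a with _ | n
  · simp
  · rw [Nat.add_sub_cancel]
    induction n with
    | zero => simp
    | succ n ih =>
      have h1 : (x + 1) ^ (n + 1 + 1) - x ^ (n + 1 + 1) =
        (x + 1) * ((x + 1) ^ (n + 1) - x ^ (n + 1)) + x ^ (n + 1) := by ring
      rw [h1]
      have h2 : (x + 1) * ((x + 1) ^ (n + 1) - x ^ (n + 1)) ≤
        (x + 1) * (((n + 1 : ℕ) : ℝ) * (x + 1) ^ n) := by gcongr
      have h3 : x ^ (n + 1) ≤ (x + 1) ^ (n + 1) := by gcongr; linarith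
      calc _ ≤ (x + 1) * (((n + 1 : ℕ) : ℝ) * (x + 1) ^ n) + (x + 1) ^ (n + 1) :=
            add_le_add h2 h3
        _ = _ := by push_cast; ring

theorem Geo_main : StGeo := by
  intro k s A hk hA
  have hA0 : 0 ≤ A := by linarith
  refine ⟨A + 2 * k ^ 2 * A * 2 ^ k + 2 * s * (1 + A) * 2 ^ k, by positivity, ?_⟩
  intro m l hkl t r hr b hb j j' hj hj' ξ ξ' hξ hξ' η η' hη hη' hD a ha
  rw [Finset.mem_Icc] at ha
  obtain ⟨ha1, hak⟩ := ha
  have hlm : l ≤ m := le_trans (Nat.le_mul_of_pos_left l (by omega)) hkl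
  set L : ℕ := 2 ^ (m - l) with hL
  set N : ℕ := 2 ^ m with hN
  have hNL : 2 ^ l * L = N := by
    rw [hL, hN, ← pow_add]
    congr 1
    omega
  have hL1 : 1 ≤ L := Nat.one_le_two_pow
  have hN1 : 1 ≤ N := Nat.one_le_two_pow
  set j0 : ℕ := b * L with hj0
  have hj0N : j0 < N := by
    rw [hj0, ← hNL]
    exact Nat.mul_lt_mul_of_pos_right hb (by omega)
  set c : ℝ := t + (j0 : ℝ) * r with hc
  have hLr : (1 : ℝ) ≤ L := by exact_mod_cast hL1
  have hNr : (1 : ℝ) ≤ N := by exact_mod_cast hN1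
  -- the powers
  have hNa : (N : ℝ) ^ (a - 1) ≤ (L : ℝ) ^ a := by
    have h1 : N ^ (a - 1) ≤ L ^ a := by
      rw [hN, hL, ← pow_mul, ← pow_mul]
      apply Nat.pow_le_pow_right (by norm_num)
      have h2 : a * l ≤ m := le_trans (Nat.mul_le_mul_right l hak) hkl
      obtain ⟨a', rfl⟩ : ∃ a', a = a' + 1 := ⟨a - 1, by omega⟩
      rw [Nat.add_sub_cancel, Nat.sub_mul]
      have h3 : m * (a' + 1) = m * a' + m := by ring
      have h4 : l * (a' + 1) = (a' + 1) * l := by ring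
      rw [h3, h4]
      omega
    exact_mod_cast h1
  have h2k : (2 : ℝ) ^ a ≤ 2 ^ k := pow_le_pow_right₀ (by norm_num) hak
  have h2k' : (2 : ℝ) ^ (a - 1) ≤ 2 ^ k := pow_le_pow_right₀ (by norm_num) (by omega)
  have hra : 0 < r ^ a := by positivity
  -- the arcs
  have hdist : ∀ h : ℕ, t + (h : ℝ) * r - c = ((h : ℝ) - j0) * r := by
    intro h
    rw [hc]
    ring
  have herr : ∀ (h : ℕ) (ζ : E k), ζ ∈ box k A (t + (h : ℝ) * r) r →
      |(-c) ^ a + Geo_L k c a ζ - (((h : ℝ) - j0) * r) ^ a| ≤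
        A * (r ^ a * ((|(h : ℝ) - j0| + 1) ^ a - |(h : ℝ) - j0| ^ a)) := by
    intro h ζ hζ
    have h1 := Geo_box hak hA0 c (t + (h : ℝ) * r) r hr.le ζ hζ
    rw [hdist h, abs_mul, abs_of_pos hr] at h1
    have h2 : (|(h : ℝ) - j0| * r + r) ^ a - (|(h : ℝ) - j0| * r) ^ a =
        r ^ a * ((|(h : ℝ) - j0| + 1) ^ a - |(h : ℝ) - j0| ^ a) := by
      have : |(h : ℝ) - j0| * r + r = (|(h : ℝ) - j0| + 1) * r := by ring
      rw [this, mul_pow, mul_pow]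
      ring
    rw [h2] at h1
    exact h1
  have hxi : ∀ (h : ℕ) (ζ : E k), h < N → ζ ∈ box k A (t + (h : ℝ) * r) r →
      |(-c) ^ a + Geo_L k c a ζ - (((h : ℝ) - j0) * r) ^ a| ≤
        r ^ a * (k * A * 2 ^ k * (L : ℝ) ^ a) := by
    intro h ζ hh hζ
    refine (herr h ζ hζ).trans ?_
    have hd : |(h : ℝ) - j0| + 1 ≤ 2 * N := by
      have h1 : |(h : ℝ) - j0| ≤ N := by
        rw [abs_le]
        have h2 : (h : ℝ) < N := by exact_mod_cast hh
        have h3 : (j0 : ℝ) < N := by exact_mod_cast hj0N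
        have h4 : (0 : ℝ) ≤ h := by positivity
        have h5 : (0 : ℝ) ≤ j0 := by positivity
        constructor <;> linarith
      linarith
    have hp := Geo_pow (abs_nonneg ((h : ℝ) - j0)) a
    have hp2 : (|(h : ℝ) - j0| + 1) ^ (a - 1) ≤ (2 * (N : ℝ)) ^ (a - 1) := by
      have : 0 ≤ |(h : ℝ) - j0| := abs_nonneg _
      gcongr
    have hak' : (a : ℝ) ≤ k := by exact_mod_cast hak
    calc A * (r ^ a * ((|(h : ℝ) - j0| + 1) ^ a - |(h : ℝ) - j0| ^ a))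
        ≤ A * (r ^ a * (a * (|(h : ℝ) - j0| + 1) ^ (a - 1))) := by gcongr
      _ ≤ A * (r ^ a * (k * (2 * (N : ℝ)) ^ (a - 1))) := by gcongr
      _ = A * (r ^ a * (k * (2 ^ (a - 1) * (N : ℝ) ^ (a - 1)))) := by rw [mul_pow]
      _ ≤ A * (r ^ a * (k * (2 ^ k * (L : ℝ) ^ a))) := by gcongr
      _ = r ^ a * (k * A * 2 ^ k * (L : ℝ) ^ a) := by ring
  have heta : ∀ ζ : E k, (∃ h : ℕ, b * L ≤ h ∧ h < (b + 1) * L ∧
      ζ ∈ box k A (t + (h : ℝ) * r) r) →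
      |(-c) ^ a + Geo_L k c a ζ| ≤ r ^ a * ((1 + A) * 2 ^ k * (L : ℝ) ^ a) := by
    rintro ζ ⟨h, h1, h2, hζ⟩
    have h3 := herr h ζ hζ
    have hd : |(h : ℝ) - j0| ≤ L := by
      have h4 : (j0 : ℝ) ≤ h := by exact_mod_cast h1
      have h5 : (h : ℝ) < (j0 : ℝ) + L := by
        have : h < j0 + L := by
          rw [hj0]
          calc h < (b + 1) * L := h2
            _ = b * L + L := by ring
        exact_mod_cast this
      rw [abs_of_nonneg (by linarith)]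
      linarith
    have hd0 : 0 ≤ |(h : ℝ) - j0| := abs_nonneg _
    have h4 : (|(h : ℝ) - j0| + 1) ^ a ≤ (2 * (L : ℝ)) ^ a := by
      gcongr
      linarith
    have h5 : |(((h : ℝ) - j0) * r) ^ a| ≤ r ^ a * (2 ^ k * (L : ℝ) ^ a) := by
      rw [abs_pow, abs_mul, abs_of_pos hr, mul_pow]
      calc |(h : ℝ) - j0| ^ a * r ^ a ≤ (L : ℝ) ^ a * r ^ a := by gcongr
        _ = r ^ a * (1 * (L : ℝ) ^ a) := by ring
        _ ≤ r ^ a * (2 ^ k * (L : ℝ) ^ a) := by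
          gcongr
          exact one_le_pow₀ (by norm_num)
    have h6 : A * (r ^ a * ((|(h : ℝ) - j0| + 1) ^ a - |(h : ℝ) - j0| ^ a)) ≤
        r ^ a * (A * 2 ^ k * (L : ℝ) ^ a) := by
      have h7 : 0 ≤ |(h : ℝ) - j0| ^ a := by positivity
      calc A * (r ^ a * ((|(h : ℝ) - j0| + 1) ^ a - |(h : ℝ) - j0| ^ a))
          ≤ A * (r ^ a * (2 * (L : ℝ)) ^ a) := by
            gcongr
            linarith
        _ = A * (r ^ a * (2 ^ a * (L : ℝ) ^ a)) := by rw [mul_pow]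
        _ ≤ A * (r ^ a * (2 ^ k * (L : ℝ) ^ a)) := by gcongr
        _ = _ := by ring
    calc |(-c) ^ a + Geo_L k c a ζ| =
        |((-c) ^ a + Geo_L k c a ζ - (((h : ℝ) - j0) * r) ^ a) + (((h : ℝ) - j0) * r) ^ a| := by
          congr 1
          ring
      _ ≤ _ := abs_add_le _ _
      _ ≤ r ^ a * (A * 2 ^ k * (L : ℝ) ^ a) + r ^ a * (2 ^ k * (L : ℝ) ^ a) :=
          add_le_add (h3.trans h6) h5
      _ = _ := by ring
  -- the difference
  obtain ⟨y, hy, hyD⟩ := hD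
  have hDb : |Geo_L k c a (∑ i, y i • fr k c i)| ≤ A * r ^ a := by
    have h1 := Geo_lin hak hA0 c c r y hy hr.le
    rw [sub_self, abs_zero, zero_add, zero_pow (by omega), sub_zero] at h1
    exact h1
  have hDc : (∑ i, ξ i + ∑ u, η u) - (∑ i, ξ' i + ∑ u, η' u) = ∑ i, y i • fr k c i := hyD
  rw [← hDc, map_sub, map_add, map_add, map_sum, map_sum, map_sum, map_sum] at hDb
  have hid : r ^ a * ∑ i, (((j i : ℝ) - j0) ^ a - ((j' i : ℝ) - j0) ^ a) =
      (∑ i, Geo_L k c a (ξ i) + ∑ u, Geo_L k c a (η u) -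
        (∑ i, Geo_L k c a (ξ' i) + ∑ u, Geo_L k c a (η' u))) -
      ∑ i, ((-c) ^ a + Geo_L k c a (ξ i) - (((j i : ℝ) - j0) * r) ^ a) +
      ∑ i, ((-c) ^ a + Geo_L k c a (ξ' i) - (((j' i : ℝ) - j0) * r) ^ a) -
      ∑ u, ((-c) ^ a + Geo_L k c a (η u)) + ∑ u, ((-c) ^ a + Geo_L k c a (η' u)) := by
    have e : ∀ f : Fin k → ℕ, ∑ i, ((((f i : ℕ) : ℝ) - j0) * r) ^ a =
        r ^ a * ∑ i, (((f i : ℕ) : ℝ) - j0) ^ a := by
      intro f
      rw [Finset.mul_sum]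
      exact Finset.sum_congr rfl fun i _ => by rw [mul_pow, mul_comm]
    simp only [Finset.sum_add_distrib, Finset.sum_sub_distrib, Finset.sum_const]
    rw [e j, e j']
    ring
  have hs1 : |∑ i, ((-c) ^ a + Geo_L k c a (ξ i) - (((j i : ℝ) - j0) * r) ^ a)| ≤
      k * (r ^ a * (k * A * 2 ^ k * (L : ℝ) ^ a)) := by
    refine (Finset.abs_sum_le_sum_abs _ _).trans ?_
    refine (Finset.sum_le_sum fun i _ => hxi (j i) (ξ i) (hj i) (hξ i)).trans ?_
    simp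
  have hs2 : |∑ i, ((-c) ^ a + Geo_L k c a (ξ' i) - (((j' i : ℝ) - j0) * r) ^ a)| ≤
      k * (r ^ a * (k * A * 2 ^ k * (L : ℝ) ^ a)) := by
    refine (Finset.abs_sum_le_sum_abs _ _).trans ?_
    refine (Finset.sum_le_sum fun i _ => hxi (j' i) (ξ' i) (hj' i) (hξ' i)).trans ?_
    simp
  have hs3 : |∑ u, ((-c) ^ a + Geo_L k c a (η u))| ≤
      s * (r ^ a * ((1 + A) * 2 ^ k * (L : ℝ) ^ a)) := by
    refine (Finset.abs_sum_le_sum_abs _ _).trans ?_
    refine (Finset.sum_le_sum fun u _ => heta (η u) (hη u)).trans ?_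
    simp
  have hs4 : |∑ u, ((-c) ^ a + Geo_L k c a (η' u))| ≤
      s * (r ^ a * ((1 + A) * 2 ^ k * (L : ℝ) ^ a)) := by
    refine (Finset.abs_sum_le_sum_abs _ _).trans ?_
    refine (Finset.sum_le_sum fun u _ => heta (η' u) (hη' u)).trans ?_
    simp
  have hcast : ((b * L : ℕ) : ℝ) = (j0 : ℝ) := by rw [hj0]
  have hfin : r ^ a * |∑ i, (((j i : ℝ) - j0) ^ a - ((j' i : ℝ) - j0) ^ a)| ≤
      r ^ a * ((A + 2 * k ^ 2 * A * 2 ^ k + 2 * s * (1 + A) * 2 ^ k) * (L : ℝ) ^ a) := by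
    rw [← abs_of_pos hra, ← abs_mul, hid, abs_of_pos hra]
    have hLa : (1 : ℝ) ≤ (L : ℝ) ^ a := one_le_pow₀ hLr
    have hAL : A * r ^ a ≤ A * r ^ a * (L : ℝ) ^ a := by
      have : 0 ≤ A * r ^ a := by positivity
      nlinarith
    rw [abs_le] at hDb hs1 hs2 hs3 hs4 ⊢
    constructor
    · have e1 : r ^ a * ((A + 2 * k ^ 2 * A * 2 ^ k + 2 * s * (1 + A) * 2 ^ k) * (L : ℝ) ^ a) =
        A * r ^ a * (L : ℝ) ^ a + 2 * (k * (r ^ a * (k * A * 2 ^ k * (L : ℝ) ^ a))) +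
          2 * (s * (r ^ a * ((1 + A) * 2 ^ k * (L : ℝ) ^ a))) := by ring
      rw [e1]
      linarith [hDb.1, hs1.2, hs2.1, hs3.2, hs4.1]
    · have e1 : r ^ a * ((A + 2 * k ^ 2 * A * 2 ^ k + 2 * s * (1 + A) * 2 ^ k) * (L : ℝ) ^ a) =
        A * r ^ a * (L : ℝ) ^ a + 2 * (k * (r ^ a * (k * A * 2 ^ k * (L : ℝ) ^ a))) +
          2 * (s * (r ^ a * ((1 + A) * 2 ^ k * (L : ℝ) ^ a))) := by ring
      rw [e1]
      linarith [hDb.2, hs1.1, hs2.2, hs3.1, hs4.2]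
  exact le_of_mul_le_mul_left hfin hra

end Pool.Agent.Helper57.MCd
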