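import Pool.Agent.Helper57.MCd.St

/-!
# Chapter MC of MP_795d31_lc: module Hold (Hoelder and power means)
-/

set_option autoImplicit false

open MeasureTheory Filter Topology Finset

namespace Pool.Agent.Helper57.MCd

open Pool.Agent.Helper19.RP

noncomputable section

lemma Hold_pm (N P : ℕ) (hN : 1 ≤ N) (hP : 1 ≤ P) (a : ℕ → ℝ) (ha : ∀ h, 0 ≤ a h) :
    (∑ h ∈ range N, a h) ^ P ≤ (N : ℝ) ^ (P - 1) * ∑ h ∈ range N, a h ^ P := by
  obtain ⟨q, rfl⟩ : ∃ q, P = q + 1 := ⟨P - 1, by omega⟩
  have h := pow_sum_div_card_le_sum_pow (s := range N) (f := a) (fun i _ => ha i) q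
  have hN0 : (0 : ℝ) < N := by exact_mod_cast hN
  rw [card_range, div_le_iff₀ (by positivity)] at h
  rw [Nat.add_sub_cancel]
  linarith

theorem Hold_main : StHold := by
  intro n μ hμ k s N hk hs hN f F hc hb hFc hFb
  obtain ⟨BF, hBF⟩ := hFb
  have hkR : (1 : ℝ) ≤ k := by exact_mod_cast hk
  have hsR : (1 : ℝ) ≤ s := by exact_mod_cast hs
  set P : ℝ := (s : ℝ) + k with hP
  have hP0 : 0 < P := by positivity
  have hk0 : (0 : ℝ) < k := by linarith
  have hs0 : (0 : ℝ) < s := by linarith
  -- bounds for the functions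
  have hb' : ∃ B : ℝ, ∀ j < N, ∀ x, ‖f j x‖ ≤ B := by
    choose! B hB using hb
    refine ⟨∑ j ∈ range N, |B j|, fun j hj x => ?_⟩
    calc ‖f j x‖ ≤ B j := hB j hj x
      _ ≤ |B j| := le_abs_self _
      _ ≤ ∑ j ∈ range N, |B j| :=
        Finset.single_le_sum (f := fun j => |B j|) (fun i _ => abs_nonneg _) (mem_range.2 hj)
  obtain ⟨B, hB⟩ := hb'
  set u : E n → ℝ := fun x => ∑ h ∈ range N, ‖f h x‖ ^ 2 with hu
  have huc : Continuous u := by
    apply continuous_finsetSum
    intro h hh
    exact (hc h (mem_range.1 hh)).norm.pow 2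
  have hu0 : ∀ x, 0 ≤ u x := fun x => Finset.sum_nonneg fun h _ => by positivity
  have hub : ∀ x, u x ≤ N * B ^ 2 := by
    intro x
    calc u x ≤ ∑ h ∈ range N, B ^ 2 := Finset.sum_le_sum fun h hh =>
          pow_le_pow_left₀ (norm_nonneg _) (hB h (mem_range.1 hh) x) 2
      _ = N * B ^ 2 := by rw [sum_const, card_range, nsmul_eq_mul]
  have hBF0 : 0 ≤ BF := le_trans (norm_nonneg _) (hBF 0)
  -- the two factors
  have hUm : MemLp (fun x => u x ^ k) (ENNReal.ofReal (P / k)) μ := by
    refine MemLp.of_bound (huc.pow k).aestronglyMeasurable ((N * B ^ 2) ^ k) ?_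
    refine Filter.Eventually.of_forall fun x => ?_
    rw [Real.norm_of_nonneg (pow_nonneg (hu0 x) k)]
    exact pow_le_pow_left₀ (hu0 x) (hub x) k
  have hVm : MemLp (fun x => ‖F x‖ ^ (2 * s)) (ENNReal.ofReal (P / s)) μ := by
    refine MemLp.of_bound (hFc.norm.pow (2 * s)).aestronglyMeasurable (BF ^ (2 * s)) ?_
    refine Filter.Eventually.of_forall fun x => ?_
    rw [Real.norm_of_nonneg (by positivity)]
    exact pow_le_pow_left₀ (norm_nonneg _) (hBF x) _
  have hconj : (P / k).HolderConjugate (P / s) := by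
    rw [Real.holderConjugate_iff]
    constructor
    · rw [lt_div_iff₀ hk0]; linarith
    · rw [inv_div, inv_div, ← add_div]
      rw [hP]; field_simp; ring
  have hmain := integral_mul_le_Lp_mul_Lq_of_nonneg hconj
    (Filter.Eventually.of_forall fun x => pow_nonneg (hu0 x) k)
    (Filter.Eventually.of_forall fun x => by positivity) hUm hVm
  have hU : ∀ x, (u x ^ k) ^ (P / k) = u x ^ (s + k) := by
    intro x
    rw [← Real.rpow_natCast (u x) k, ← Real.rpow_mul (hu0 x),
      show (k : ℝ) * (P / k) = ((s + k : ℕ) : ℝ) by rw [hP]; push_cast; field_simp,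
      Real.rpow_natCast]
  have hV : ∀ x, (‖F x‖ ^ (2 * s)) ^ (P / s) = ‖F x‖ ^ (2 * (s + k)) := by
    intro x
    rw [← Real.rpow_natCast (‖F x‖) (2 * s), ← Real.rpow_mul (norm_nonneg _),
      show ((2 * s : ℕ) : ℝ) * (P / s) = ((2 * (s + k) : ℕ) : ℝ) by rw [hP]; push_cast; field_simp,
      Real.rpow_natCast]
  simp only [hU, hV, one_div, inv_div] at hmain
  refine hmain.trans ?_
  apply mul_le_mul_of_nonneg_right _ (Real.rpow_nonneg (integral_nonneg fun x => by positivity) _)
  apply Real.rpow_le_rpow (integral_nonneg fun x => pow_nonneg (hu0 x) _) _ (by positivity)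
  have hint : ∀ h ∈ range N, Integrable (fun x => ‖f h x‖ ^ (2 * (s + k))) μ := by
    intro h hh
    refine Integrable.of_bound (C := B ^ (2 * (s + k)))
      ((hc h (mem_range.1 hh)).norm.pow _).aestronglyMeasurable ?_
    refine Filter.Eventually.of_forall fun x => ?_
    rw [Real.norm_of_nonneg (by positivity)]
    exact pow_le_pow_left₀ (norm_nonneg _) (hB h (mem_range.1 hh) x) _
  rw [← integral_finsetSum _ hint, ← integral_const_mul]
  apply integral_mono_of_nonneg
  · exact Filter.Eventually.of_forall fun x => pow_nonneg (hu0 x) _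
  · exact (integrable_finsetSum _ hint).const_mul _
  · refine Filter.Eventually.of_forall fun x => ?_
    refine (Hold_pm N (s + k) hN (by omega) (fun h => ‖f h x‖ ^ 2) fun h => by positivity).trans
      (le_of_eq ?_)
    simp only [← pow_mul]

end

end Pool.Agent.Helper57.MCd
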