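import Pool.Agent.Helper57.MCd.St

/-!
# Chapter MC of MP_795d31_lc, module Num: the numerical induction step
-/

set_option autoImplicit false

open MeasureTheory Filter Topology Finset

namespace Pool.Agent.Helper57.MCd

open Pool.Agent.Helper19.RP

noncomputable section

/-- the exponent estimate -/
lemma Num_exp (k s : ℝ) (lam e m l : ℝ) (hk : 1 ≤ k) (hs : 1 ≤ s)
    (hlam : k ^ 4 ≤ lam * (2 * (s + k))) (hlam0 : 0 < lam)
    (he : e = 2 * (s + k) - 1 - k * (k + 1) / 2 + lam) (hm : 0 ≤ m)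
    (h1 : k * l ≤ m) (h2 : m ≤ k * (l + 1)) :
    l * (2 * s - 1) + k * m - l * (k * (k + 1) / 2) + m * (s + k - 1) * k / (s + k) +
        l * k / (s + k) + e * (m - l) * (s / (s + k)) ≤
      e * m + |2 * s - 1 - k * (k + 1) / 2 + k / (s + k) - e * (s / (s + k))| := by
  set β := 2 * s - 1 - k * (k + 1) / 2 + k / (s + k) - e * (s / (s + k)) with hβ
  have hk0 : k ≠ 0 := by linarith
  have hP : 0 < s + k := by linarith
  have hP0 : s + k ≠ 0 := hP.ne'
  have e1 : l * (2 * s - 1) + k * m - l * (k * (k + 1) / 2) + m * (s + k - 1) * k / (s + k) +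
        l * k / (s + k) + e * (m - l) * (s / (s + k)) =
      m * (k + (s + k - 1) * k / (s + k) + e * (s / (s + k))) + l * β := by
    rw [hβ]
    ring
  have e2 : l * β ≤ m / k * β + |β| := by
    have h3 : 0 ≤ m / k - l := by
      rw [sub_nonneg, le_div_iff₀ (by linarith)]
      linarith
    have h4 : m / k - l ≤ 1 := by
      rw [sub_le_iff_le_add, div_le_iff₀ (by linarith)]
      linarith
    have h5 : -((m / k - l) * β) ≤ |β| := by
      calc -((m / k - l) * β) ≤ |(m / k - l) * β| := neg_le_abs _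
        _ = (m / k - l) * |β| := by rw [abs_mul, abs_of_nonneg h3]
        _ ≤ 1 * |β| := mul_le_mul_of_nonneg_right h4 (abs_nonneg _)
        _ = |β| := one_mul _
    linarith
  have e3 : k + (s + k - 1) * k / (s + k) + e * (s / (s + k)) + β / k ≤ e := by
    have h6 : e - (k + (s + k - 1) * k / (s + k) + e * (s / (s + k)) + β / k) =
        lam * (1 / k + (k - 1) / (s + k)) - (k - 1) * k * (k + 1) / (2 * (s + k)) := by
      rw [hβ, he]
      field_simp
      ring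
    have h7 : (k - 1) * k * (k + 1) / (2 * (s + k)) ≤ lam / k := by
      rw [div_le_div_iff₀ (by linarith) (by linarith)]
      nlinarith [mul_nonneg (by linarith : (0:ℝ) ≤ k) (by linarith : (0:ℝ) ≤ k)]
    have h8 : 0 ≤ lam * ((k - 1) / (s + k)) :=
      mul_nonneg hlam0.le (div_nonneg (by linarith) hP.le)
    have h9 : lam * (1 / k + (k - 1) / (s + k)) = lam / k + lam * ((k - 1) / (s + k)) := by ring
    rw [h9] at h6
    linarith
  rw [e1]
  calc m * (k + (s + k - 1) * k / (s + k) + e * (s / (s + k))) + l * β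
      ≤ m * (k + (s + k - 1) * k / (s + k) + e * (s / (s + k))) + (m / k * β + |β|) := by linarith
    _ = m * (k + (s + k - 1) * k / (s + k) + e * (s / (s + k)) + β / k) + |β| := by ring
    _ ≤ m * e + |β| := by
        have := mul_le_mul_of_nonneg_left e3 hm
        linarith
    _ = e * m + |β| := by ring

theorem Num_main : StNum := by
  intro k s lam e hk hs hlam0 hlam he C0 hC0
  have hkR : (1 : ℝ) ≤ k := by exact_mod_cast hk
  have hsR : (1 : ℝ) ≤ s := by exact_mod_cast hs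
  have hP : (0 : ℝ) < s + k := by linarith
  set β : ℝ := 2 * s - 1 - k * (k + 1) / 2 + k / (s + k) - e * (s / (s + k)) with hβ
  set Q : ℝ := 2 * C0 * (2 : ℝ) ^ |β| with hQ
  have hQ0 : 0 < Q := by positivity
  refine ⟨Q ^ (((s : ℝ) + k) / k), Real.rpow_pos_of_pos hQ0 _, ?_⟩
  intro C hC m l h1 h2
  have hC0' : 0 < C := lt_of_lt_of_le (Real.rpow_pos_of_pos hQ0 _) hC
  have h2p : (0 : ℝ) < 2 := by norm_num
  have hlm : l ≤ m := le_trans (by nlinarith) h1
  -- C to the power k / P is at least Q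
  have hCQ : Q ≤ C ^ ((k : ℝ) / (s + k)) := by
    calc Q = (Q ^ (((s : ℝ) + k) / k)) ^ ((k : ℝ) / (s + k)) := by
          rw [← Real.rpow_mul hQ0.le]
          have : ((s : ℝ) + k) / k * (k / (s + k)) = 1 := by
            field_simp
          rw [this, Real.rpow_one]
      _ ≤ _ := Real.rpow_le_rpow (Real.rpow_nonneg hQ0.le _) hC (by positivity)
  have hCs : C = C ^ ((s : ℝ) / (s + k)) * C ^ ((k : ℝ) / (s + k)) := by
    rw [← Real.rpow_add hC0', ← add_div, div_self hP.ne', Real.rpow_one]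
  -- exponents
  have x1 : ((2 : ℝ) ^ l) ^ (2 * s - 1) = (2 : ℝ) ^ ((l : ℝ) * (2 * s - 1)) := by
    rw [← pow_mul, ← Real.rpow_natCast]
    congr 1
    push_cast [Nat.cast_sub (by omega : 1 ≤ 2 * s)]
    ring
  have x2 : (2 : ℝ) ^ (k * m) = (2 : ℝ) ^ ((k : ℝ) * m) := by
    rw [← Real.rpow_natCast]
    push_cast
    rfl
  have x3 : (2 : ℝ) ^ (l * (k * (k + 1) / 2)) = (2 : ℝ) ^ ((l : ℝ) * ((k : ℝ) * (k + 1) / 2)) := by
    rw [← Real.rpow_natCast]
    congr 1
    have hdiv : 2 ∣ k * (k + 1) := (Nat.even_mul_succ_self k).two_dvd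
    push_cast [Nat.cast_div hdiv (by norm_num : ((2 : ℕ) : ℝ) ≠ 0)]
    ring
  have x4 : (C * (2 : ℝ) ^ (e * ((m - l : ℕ) : ℝ))) ^ ((s : ℝ) / (s + k)) =
      C ^ ((s : ℝ) / (s + k)) * (2 : ℝ) ^ (e * ((m : ℝ) - l) * (s / (s + k))) := by
    rw [Real.mul_rpow hC0'.le (Real.rpow_nonneg h2p.le _), ← Real.rpow_mul h2p.le,
      Nat.cast_sub hlm]
  have hexp := Num_exp (k : ℝ) (s : ℝ) lam e m l hkR hsR hlam hlam0 he (Nat.cast_nonneg m)
    (by exact_mod_cast h1) (by exact_mod_cast h2.le)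
  rw [← hβ] at hexp
  set G : ℝ := (l : ℝ) * (2 * s - 1) + k * m - l * (k * (k + 1) / 2) +
    m * (s + k - 1) * k / (s + k) + l * k / (s + k) + e * (m - l) * (s / (s + k)) with hG
  rw [x1, x2, x3, x4]
  have hL : C0 * (2 : ℝ) ^ ((l : ℝ) * (2 * s - 1)) *
        ((2 : ℝ) ^ ((k : ℝ) * m) / (2 : ℝ) ^ ((l : ℝ) * ((k : ℝ) * (k + 1) / 2))) *
        ((2 : ℝ) ^ ((m : ℝ) * (s + k - 1) * k / (s + k))) *
        ((2 : ℝ) ^ ((l : ℝ) * k / (s + k))) *
        (C ^ ((s : ℝ) / (s + k)) * (2 : ℝ) ^ (e * ((m : ℝ) - l) * (s / (s + k)))) =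
      C0 * C ^ ((s : ℝ) / (s + k)) * (2 : ℝ) ^ G := by
    rw [hG, Real.rpow_add h2p, Real.rpow_add h2p, Real.rpow_add h2p, Real.rpow_sub h2p,
      Real.rpow_add h2p]
    ring
  rw [hL]
  have hCs0 : 0 < C ^ ((s : ℝ) / (s + k)) := Real.rpow_pos_of_pos hC0' _
  calc C0 * C ^ ((s : ℝ) / (s + k)) * (2 : ℝ) ^ G
      ≤ C0 * C ^ ((s : ℝ) / (s + k)) * (2 : ℝ) ^ (e * m + |β|) := by
        refine mul_le_mul_of_nonneg_left ?_ (by positivity)
        exact Real.rpow_le_rpow_of_exponent_le (by norm_num) hexp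
    _ = C ^ ((s : ℝ) / (s + k)) * Q / 2 * (2 : ℝ) ^ (e * m) := by
        rw [Real.rpow_add h2p, hQ]
        ring
    _ ≤ C ^ ((s : ℝ) / (s + k)) * C ^ ((k : ℝ) / (s + k)) / 2 * (2 : ℝ) ^ (e * m) := by
        gcongr
    _ = C / 2 * (2 : ℝ) ^ (e * m) := by rw [← hCs]

end

end Pool.Agent.Helper57.MCd
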