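import Pool.Agent.Helper57.MCd.TSlem

/-!
# Chapter MC of MP_795d31_lc, module Orth: expansion of a product of blocks
-/

set_option autoImplicit false

open MeasureTheory Filter Topology Finset

namespace Pool.Agent.Helper57.MCd

open Pool.Agent.Helper19.RP

noncomputable section

lemma Orth_block {m l b : ℕ} (hl : l ≤ m) (hb : b < 2 ^ l) : (b + 1) * 2 ^ (m - l) ≤ 2 ^ m := by
  calc (b + 1) * 2 ^ (m - l) ≤ 2 ^ l * 2 ^ (m - l) := Nat.mul_le_mul_right _ hb
    _ = 2 ^ m := by rw [← pow_add]; congr 1; omega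

lemma Orth_int {n : ℕ} (μ : Measure (E n)) [IsFiniteMeasure μ] {g : E n → ℝ} (h1 : Continuous g)
    (h2 : ∃ B : ℝ, ∀ x, |g x| ≤ B) : Integrable g μ := by
  obtain ⟨B, hB⟩ := h2
  exact Integrable.of_bound h1.aestronglyMeasurable B
    (Filter.Eventually.of_forall fun x => by simpa using hB x)

theorem Orth_main (h1 : StCross) (h2 : StAlmost) (h3 : StCnt) : StOrth := by
  intro k q s A hk hA
  obtain ⟨C1, hC1, hcross⟩ := h1 k s A hk hA
  obtain ⟨C2, hC2, hcnt⟩ := h3 k q C1 hk hC1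
  refine ⟨C2, hC2, ?_⟩
  intro m l hqm hkl n pr μ hμ t r hr hvan f hfam τ hτ b hb
  have := hμ
  classical
  have hlm : l ≤ m := le_trans (by nlinarith) hkl
  set L := 2 ^ (m - l) with hL
  have hτ' : ∀ i, τ i < 2 ^ q := by
    intro i
    have := (Finset.mem_filter.1 hτ).1
    rw [Fintype.mem_piFinset] at this
    exact Finset.mem_range.1 (this i)
  -- univ trigonometric sums
  have hfU : ∀ j < 2 ^ m, TS (Set.univ : Set (E n)) (f j) := fun j hj =>
    TS_mono (hfam j hj) (Set.subset_univ _)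
  set B : E n → ℂ := fun x => bz (fun h => f h x) L b with hB
  have hBU : TS (Set.univ : Set (E n)) B := by
    simp only [hB, bz]
    refine TS_sum _ fun j hj => hfU j ?_
    rw [Finset.mem_Ico] at hj
    exact lt_of_lt_of_le hj.2 (Orth_block hlm hb)
  set T : Finset (Fin k → ℕ) := Fintype.piFinset
    (fun i => Ico (τ i * 2 ^ (m - q)) ((τ i + 1) * 2 ^ (m - q))) with hT
  have hTm : ∀ j ∈ T, ∀ i, j i < 2 ^ m := by
    intro j hj i
    rw [hT, Fintype.mem_piFinset] at hj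
    exact lt_of_lt_of_le (Finset.mem_Ico.1 (hj i)).2 (Orth_block hqm (hτ' i))
  set g : (Fin k → ℕ) → E n → ℂ := fun j x => (∏ i, f (j i) x) * B x ^ s with hg
  have hgU : ∀ j ∈ T, TS (Set.univ : Set (E n)) (g j) := by
    intro j hj
    simp only [hg]
    refine TS_mul (S := Set.univ) (T := Set.univ) ?_ ?_ (fun _ _ _ _ => Set.mem_univ _)
    · exact TS_mono (TS_prod fun i => hfU (j i) (hTm j hj i)) (Set.subset_univ _)
    · exact TS_mono (TS_pow s hBU) (Set.subset_univ _)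
  set D : ℝ := C2 * 2 ^ (k * m) / 2 ^ (l * (k * (k + 1) / 2)) with hD
  have hD0 : 0 ≤ D := by positivity
  have hmain := h2 n μ hμ (Fin k → ℕ) T g (fun j j' => Rel k C1 L (b * L) j j') D hD0
    (fun j hj => TS_cont (hgU j hj)) (fun j hj => TS_bdd (hgU j hj))
    (fun j hj j' hj' hrel => hcross m l hkl n pr μ hμ t r hr hvan f hfam b hb j j' (hTm j hj)
      (hTm j' hj') hrel)
    (fun j hj U hU hUrel => hcnt m l hqm hkl τ hτ (b * L) (by
      have := Orth_block hlm hb
      have hLpos : 0 < L := by positivity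
      nlinarith) j U
      (fun j' hj' i => by
        have := hU hj'
        rw [hT, Fintype.mem_piFinset] at this
        exact this i) hUrel)
  -- the left side
  have e1 : ∀ x, (∏ i, ‖bz (fun h => f h x) (2 ^ (m - q)) (τ i)‖ ^ 2) * ‖B x‖ ^ (2 * s) =
      ‖∑ j ∈ T, g j x‖ ^ 2 := by
    intro x
    have : ∑ j ∈ T, g j x = (∏ i, bz (fun h => f h x) (2 ^ (m - q)) (τ i)) * B x ^ s := by
      simp only [hg, bz]
      rw [← Finset.sum_mul, Finset.prod_univ_sum]
    rw [this, norm_mul, norm_pow, norm_prod, mul_pow, ← pow_mul, Finset.prod_pow, mul_comm s 2]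
  have e2 : ∀ x, ∑ j ∈ T, ‖g j x‖ ^ 2 ≤
      (∑ h ∈ range (2 ^ m), ‖f h x‖ ^ 2) ^ k * ‖B x‖ ^ (2 * s) := by
    intro x
    have : ∑ j ∈ T, ‖g j x‖ ^ 2 =
        (∏ i, ∑ h ∈ Ico (τ i * 2 ^ (m - q)) ((τ i + 1) * 2 ^ (m - q)), ‖f h x‖ ^ 2) *
          ‖B x‖ ^ (2 * s) := by
      rw [Finset.prod_univ_sum, Finset.sum_mul]
      refine Finset.sum_congr rfl fun j _ => ?_
      simp only [hg]
      rw [norm_mul, norm_pow, norm_prod, mul_pow, ← pow_mul, Finset.prod_pow, mul_comm s 2]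
    rw [this]
    refine mul_le_mul_of_nonneg_right ?_ (by positivity)
    calc ∏ i, ∑ h ∈ Ico (τ i * 2 ^ (m - q)) ((τ i + 1) * 2 ^ (m - q)), ‖f h x‖ ^ 2
        ≤ ∏ i : Fin k, ∑ h ∈ range (2 ^ m), ‖f h x‖ ^ 2 := by
          refine Finset.prod_le_prod (fun i _ => Finset.sum_nonneg fun _ _ => by positivity)
            fun i _ => ?_
          refine Finset.sum_le_sum_of_subset_of_nonneg ?_ fun _ _ _ => by positivity
          intro h hh
          rw [Finset.mem_Ico] at hh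
          exact Finset.mem_range.2 (lt_of_lt_of_le hh.2 (Orth_block hqm (hτ' i)))
      _ = _ := by rw [Finset.prod_const, Finset.card_univ, Fintype.card_fin]
  refine le_trans (le_of_eq (integral_congr_ae (Filter.Eventually.of_forall e1))) ?_
  refine hmain.trans ?_
  refine mul_le_mul_of_nonneg_left ?_ hD0
  have hgi : ∀ j ∈ T, Integrable (fun x => ‖g j x‖ ^ 2) μ := by
    intro j hj
    obtain ⟨Bg, hBg⟩ := TS_bdd (hgU j hj)
    refine Orth_int μ ((TS_cont (hgU j hj)).norm.pow 2) ⟨Bg ^ 2, fun x => ?_⟩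
    rw [abs_of_nonneg (by positivity)]
    exact pow_le_pow_left₀ (norm_nonneg _) (hBg x) 2
  rw [← integral_finsetSum _ hgi]
  refine integral_mono_of_nonneg (Filter.Eventually.of_forall fun x =>
    Finset.sum_nonneg fun _ _ => by positivity) ?_ (Filter.Eventually.of_forall e2)
  -- integrability of the right side
  have hfc : ∀ j ∈ range (2 ^ m), Continuous (f j) := fun j hj =>
    TS_cont (hfU j (Finset.mem_range.1 hj))
  have hfb : ∀ j ∈ range (2 ^ m), ∃ B : ℝ, ∀ x, ‖f j x‖ ≤ B := fun j hj =>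
    TS_bdd (hfU j (Finset.mem_range.1 hj))
  choose! Bf hBf using hfb
  obtain ⟨BB, hBB⟩ := TS_bdd hBU
  have hc1 : Continuous (fun x => ∑ h ∈ range (2 ^ m), ‖f h x‖ ^ 2) :=
    continuous_finsetSum _ fun j hj => (hfc j hj).norm.pow 2
  refine Orth_int μ ((hc1.pow k).mul ((TS_cont hBU).norm.pow (2 * s)))
    ⟨(∑ h ∈ range (2 ^ m), Bf h ^ 2) ^ k * BB ^ (2 * s), fun x => ?_⟩
  have hn : 0 ≤ ∑ h ∈ range (2 ^ m), ‖f h x‖ ^ 2 := Finset.sum_nonneg fun _ _ => by positivity
  rw [abs_of_nonneg (by positivity)]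
  refine mul_le_mul ?_ (pow_le_pow_left₀ (norm_nonneg _) (hBB x) _) (by positivity)
    (pow_nonneg (Finset.sum_nonneg fun _ _ => by positivity) _)
  refine pow_le_pow_left₀ hn (Finset.sum_le_sum fun j hj => ?_) k
  exact pow_le_pow_left₀ (norm_nonneg _) (hBf j hj x) 2

end

end Pool.Agent.Helper57.MCd
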