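import Pool.Agent.Helper57.MCd.Triv

/-!
# Chapter MC of MP_795d31_lc, module Point: broad-narrow inequality for complex numbers
-/

set_option autoImplicit false

open MeasureTheory Filter Topology Finset

namespace Pool.Agent.Helper57.MCd

open Pool.Agent.Helper19.RP

noncomputable section

theorem bz_tile (z : ℕ → ℂ) (L : ℕ) : ∀ M : ℕ,
    ∑ b ∈ range M, bz z L b = ∑ j ∈ range (M * L), z j
  | 0 => by simp
  | M + 1 => by
    rw [Finset.sum_range_succ, bz_tile z L M]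
    unfold bz
    exact Finset.sum_range_add_sum_Ico _ (Nat.mul_le_mul_right L (Nat.le_succ M))

theorem bz_tile_pow (z : ℕ → ℂ) (m l : ℕ) (h : l ≤ m) :
    ∑ b ∈ range (2 ^ l), bz z (2 ^ (m - l)) b = ∑ j ∈ range (2 ^ m), z j := by
  rw [bz_tile, ← pow_add]
  congr 3
  omega

theorem exists_gap (k : ℕ) (G : Finset ℕ) (h : 2 * k - 1 ≤ #G) :
    ∃ τ : Fin k → ℕ, (∀ i, τ i ∈ G) ∧ ∀ i i' : Fin k, i < i' → τ i + 2 ≤ τ i' := by
  let e := G.orderEmbOfFin rfl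
  have hlt : ∀ i : Fin k, 2 * i.1 < #G := fun i => by have := i.2; omega
  refine ⟨fun i => e ⟨2 * i.1, hlt i⟩, fun i => Finset.orderEmbOfFin_mem G rfl _, ?_⟩
  intro i i' hii
  have h1 : 2 * i.1 + 1 < #G := by
    have := hlt i'
    have h3 : i.1 < i'.1 := hii
    omega
  have h2 : e ⟨2 * i.1, hlt i⟩ < e ⟨2 * i.1 + 1, h1⟩ := by
    rw [OrderEmbedding.lt_iff_lt]
    show 2 * i.1 < 2 * i.1 + 1
    omega
  have h3 : e ⟨2 * i.1 + 1, h1⟩ < e ⟨2 * i'.1, hlt i'⟩ := by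
    rw [OrderEmbedding.lt_iff_lt]
    show 2 * i.1 + 1 < 2 * i'.1
    have h3 : i.1 < i'.1 := hii
    omega
  show e ⟨2 * i.1, hlt i⟩ + 2 ≤ e ⟨2 * i'.1, hlt i'⟩
  omega

theorem Point_main : StPoint := by
  intro k q l m s hk hs hqm hlm z
  set S : ℂ := ∑ j ∈ range (2 ^ m), z j with hS
  set Z : ℕ → ℂ := fun b => bz z (2 ^ (m - q)) b with hZ
  have hA : 0 ≤ ((2 : ℝ) ^ (q + 1)) ^ (2 * k) * ((2 : ℝ) ^ l) ^ (2 * s - 1) *
          ∑ τ ∈ NA k q, ∑ b ∈ range (2 ^ l),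
            (∏ i, ‖bz z (2 ^ (m - q)) (τ i)‖ ^ 2) * ‖bz z (2 ^ (m - l)) b‖ ^ (2 * s) := by
    positivity
  have hB : 0 ≤ (4 * (k : ℝ)) ^ (2 * (s + k)) *
          ∑ b ∈ range (2 ^ q), ‖bz z (2 ^ (m - q)) b‖ ^ (2 * (s + k)) := by
    positivity
  let G : Finset ℕ := (range (2 ^ q)).filter (fun b => ‖S‖ ≤ 2 ^ (q + 1) * ‖Z b‖)
  by_cases hG : 2 * k - 1 ≤ #G
  · -- broad case
    obtain ⟨τ, hτ, hgap⟩ := exists_gap k G hG
    have hNA : τ ∈ NA k q := by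
      unfold NA
      rw [Finset.mem_filter, Fintype.mem_piFinset]
      refine ⟨fun i => (Finset.mem_filter.1 (hτ i)).1, ?_⟩
      intro i i' hne
      rcases lt_or_gt_of_ne hne with h | h
      · exact Or.inl (hgap i i' h)
      · exact Or.inr (hgap i' i h)
    have h1 : ‖S‖ ^ (2 * k) ≤ ((2 : ℝ) ^ (q + 1)) ^ (2 * k) * ∏ i, ‖Z (τ i)‖ ^ 2 := by
      have e1 : ‖S‖ ^ (2 * k) = ∏ _i : Fin k, ‖S‖ ^ 2 := by
        rw [Finset.prod_const, Finset.card_univ, Fintype.card_fin, pow_mul]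
      have e2 : ((2 : ℝ) ^ (q + 1)) ^ (2 * k) * ∏ i, ‖Z (τ i)‖ ^ 2 =
          ∏ i : Fin k, (2 ^ (q + 1) * ‖Z (τ i)‖) ^ 2 := by
        simp only [mul_pow _ _ 2, Finset.prod_mul_distrib, Finset.prod_const, Finset.card_univ,
          Fintype.card_fin]
        rw [pow_mul ((2 : ℝ) ^ (q + 1))]
      rw [e1, e2]
      refine Finset.prod_le_prod (fun i _ => by positivity) fun i _ => ?_
      exact pow_le_pow_left₀ (norm_nonneg _) (Finset.mem_filter.1 (hτ i)).2 2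
    have h2 : ‖S‖ ^ (2 * s) ≤ ((2 : ℝ) ^ l) ^ (2 * s - 1) *
        ∑ b ∈ range (2 ^ l), ‖bz z (2 ^ (m - l)) b‖ ^ (2 * s) := by
      have := norm_sum_pow_le (range (2 ^ l)) (fun b => bz z (2 ^ (m - l)) b) (2 * s) (by omega)
      rw [bz_tile_pow z m l hlm, Finset.card_range] at this
      push_cast at this
      exact this
    have h3 : ‖S‖ ^ (2 * (s + k)) ≤ ((2 : ℝ) ^ (q + 1)) ^ (2 * k) * ((2 : ℝ) ^ l) ^ (2 * s - 1) *
        ∑ b ∈ range (2 ^ l),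
            (∏ i, ‖bz z (2 ^ (m - q)) (τ i)‖ ^ 2) * ‖bz z (2 ^ (m - l)) b‖ ^ (2 * s) := by
      rw [← Finset.mul_sum]
      calc ‖S‖ ^ (2 * (s + k)) = ‖S‖ ^ (2 * k) * ‖S‖ ^ (2 * s) := by rw [← pow_add]; congr 1; ring
        _ ≤ (((2 : ℝ) ^ (q + 1)) ^ (2 * k) * ∏ i, ‖Z (τ i)‖ ^ 2) * (((2 : ℝ) ^ l) ^ (2 * s - 1) *
              ∑ b ∈ range (2 ^ l), ‖bz z (2 ^ (m - l)) b‖ ^ (2 * s)) := by gcongr
        _ = _ := by ring
    have h4 : ∑ b ∈ range (2 ^ l),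
            (∏ i, ‖bz z (2 ^ (m - q)) (τ i)‖ ^ 2) * ‖bz z (2 ^ (m - l)) b‖ ^ (2 * s) ≤
        ∑ τ ∈ NA k q, ∑ b ∈ range (2 ^ l),
            (∏ i, ‖bz z (2 ^ (m - q)) (τ i)‖ ^ 2) * ‖bz z (2 ^ (m - l)) b‖ ^ (2 * s) :=
      Finset.single_le_sum (f := fun τ : Fin k → ℕ => ∑ b ∈ range (2 ^ l),
            (∏ i, ‖bz z (2 ^ (m - q)) (τ i)‖ ^ 2) * ‖bz z (2 ^ (m - l)) b‖ ^ (2 * s))
        (fun τ _ => by positivity) hNA
    have h5 := mul_le_mul_of_nonneg_left h4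
      (show (0:ℝ) ≤ ((2 : ℝ) ^ (q + 1)) ^ (2 * k) * ((2 : ℝ) ^ l) ^ (2 * s - 1) by positivity)
    linarith
  · -- narrow case
    have hcard : (#G : ℝ) ≤ 2 * k := by
      have : #G ≤ 2 * k := by omega
      exact_mod_cast this
    have hsplit : ‖S‖ ≤ ∑ b ∈ G, ‖Z b‖ + ‖S‖ / 2 := by
      have e1 : S = ∑ b ∈ range (2 ^ q), Z b := by rw [hS, hZ, bz_tile_pow z m q hqm]
      have e2 : ‖S‖ ≤ ∑ b ∈ range (2 ^ q), ‖Z b‖ := by
        conv_lhs => rw [e1]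
        exact norm_sum_le _ _
      have e3 : ∑ b ∈ range (2 ^ q), ‖Z b‖ = ∑ b ∈ G, ‖Z b‖ +
          ∑ b ∈ (range (2 ^ q)).filter (fun b => ¬ ‖S‖ ≤ 2 ^ (q + 1) * ‖Z b‖), ‖Z b‖ :=
        (Finset.sum_filter_add_sum_filter_not _ _ _).symm
      have e4 : ∑ b ∈ (range (2 ^ q)).filter (fun b => ¬ ‖S‖ ≤ 2 ^ (q + 1) * ‖Z b‖), ‖Z b‖ ≤
          ‖S‖ / 2 := by
        calc _ ≤ ∑ b ∈ (range (2 ^ q)).filter (fun b => ¬ ‖S‖ ≤ 2 ^ (q + 1) * ‖Z b‖),
              ‖S‖ / 2 ^ (q + 1) := by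
                refine Finset.sum_le_sum fun b hb => ?_
                have := (Finset.mem_filter.1 hb).2
                rw [le_div_iff₀ (by positivity)]
                push Not at this
                linarith
          _ ≤ ∑ b ∈ range (2 ^ q), ‖S‖ / 2 ^ (q + 1) :=
                Finset.sum_le_sum_of_subset_of_nonneg (Finset.filter_subset _ _)
                  (fun _ _ _ => by positivity)
          _ = ‖S‖ / 2 := by
                rw [Finset.sum_const, Finset.card_range, nsmul_eq_mul, pow_succ]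
                push_cast
                field_simp
      linarith
    have h1 : ‖S‖ ≤ 2 * ∑ b ∈ G, ‖Z b‖ := by linarith
    obtain ⟨P, hP⟩ : ∃ P, 2 * (s + k) = P + 1 := ⟨2 * (s + k) - 1, by omega⟩
    have h2 : ‖S‖ ^ (2 * (s + k)) ≤ (4 * (k : ℝ)) ^ (2 * (s + k)) *
          ∑ b ∈ range (2 ^ q), ‖bz z (2 ^ (m - q)) b‖ ^ (2 * (s + k)) := by
      rw [hP]
      have hk1 : (1 : ℝ) ≤ k := by exact_mod_cast hk
      calc ‖S‖ ^ (P + 1) ≤ (2 * ∑ b ∈ G, ‖Z b‖) ^ (P + 1) :=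
            pow_le_pow_left₀ (norm_nonneg _) h1 _
        _ = 2 ^ (P + 1) * (∑ b ∈ G, ‖Z b‖) ^ (P + 1) := by rw [mul_pow]
        _ ≤ 2 ^ (P + 1) * ((#G : ℝ) ^ P * ∑ b ∈ G, ‖Z b‖ ^ (P + 1)) := by
            gcongr
            exact pow_sum_le_card_mul_sum_pow (fun i _ => norm_nonneg _) P
        _ ≤ 2 ^ (P + 1) * ((2 * (k : ℝ)) ^ (P + 1) *
              ∑ b ∈ range (2 ^ q), ‖Z b‖ ^ (P + 1)) := by
            gcongr
            · calc (#G : ℝ) ^ P ≤ (2 * (k : ℝ)) ^ P := by gcongr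
                _ ≤ (2 * (k : ℝ)) ^ (P + 1) :=
                  pow_le_pow_right₀ (by linarith) (Nat.le_succ P)
            · exact Finset.filter_subset _ _
        _ = _ := by
            rw [← mul_assoc, ← mul_pow]
            congr 2
            ring
    linarith

end

end Pool.Agent.Helper57.MCd
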