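import Pool.Agent.Helper57.MCd.TSlem

/-!
# Chapter MC of MP_795d31_lc, module Rec: the recursion
-/

set_option autoImplicit false

open MeasureTheory Filter Topology Finset

namespace Pool.Agent.Helper57.MCd

open Pool.Agent.Helper19.RP

noncomputable section

lemma Rec_int {n : ℕ} (μ : Measure (E n)) [IsFiniteMeasure μ] {g : E n → ℝ} (h1 : Continuous g)
    (h2 : ∃ B : ℝ, ∀ x, |g x| ≤ B) : Integrable g μ := by
  obtain ⟨B, hB⟩ := h2
  exact Integrable.of_bound h1.aestronglyMeasurable B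
    (Filter.Eventually.of_forall fun x => by simpa using hB x)

lemma Rec_bzTS {n N : ℕ} {f : ℕ → E n → ℂ} (hf : ∀ j < N, TS (Set.univ : Set (E n)) (f j))
    (L b : ℕ) (h : (b + 1) * L ≤ N) :
    TS (Set.univ : Set (E n)) (fun x => bz (fun h => f h x) L b) := by
  unfold bz
  refine TS_sum _ fun j hj => hf j ?_
  rw [Finset.mem_Ico] at hj
  omega

lemma Rec_tile (g : ℕ → ℝ) (L : ℕ) : ∀ n : ℕ,
    ∑ b ∈ range n, ∑ h ∈ Ico (b * L) ((b + 1) * L), g h = ∑ h ∈ range (n * L), g h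
  | 0 => by simp
  | n + 1 => by
    rw [Finset.sum_range_succ, Rec_tile g L n, Finset.range_eq_Ico, Finset.range_eq_Ico,
      Finset.sum_Ico_consecutive]
    · omega
    · exact Nat.mul_le_mul_right _ (by omega)

lemma Rec_conc {ι : Type*} (T : Finset ι) (a : ι → ℝ) (ha : ∀ i ∈ T, 0 ≤ a i) (k s : ℕ)
    (hs : 1 ≤ s) :
    ∑ i ∈ T, a i ^ ((s : ℝ) / (s + k)) ≤
      (#T : ℝ) ^ ((k : ℝ) / (s + k)) * (∑ i ∈ T, a i) ^ ((s : ℝ) / (s + k)) := by
  have hsR : (1 : ℝ) ≤ s := by exact_mod_cast hs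
  have hkR : (0 : ℝ) ≤ k := by positivity
  have hp : (1 : ℝ) ≤ ((s : ℝ) + k) / s := by
    rw [le_div_iff₀ (by linarith)]
    linarith
  have h1 := Real.rpow_sum_le_const_mul_sum_rpow T (fun i => a i ^ ((s : ℝ) / (s + k))) hp
  have h2 : ∀ i ∈ T, |a i ^ ((s : ℝ) / (s + k))| = a i ^ ((s : ℝ) / (s + k)) := fun i hi =>
    abs_of_nonneg (Real.rpow_nonneg (ha i hi) _)
  have h3 : ∀ i ∈ T, |a i ^ ((s : ℝ) / (s + k))| ^ (((s : ℝ) + k) / s) = a i := by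
    intro i hi
    rw [h2 i hi, ← Real.rpow_mul (ha i hi)]
    have : (s : ℝ) / (s + k) * (((s : ℝ) + k) / s) = 1 := by
      field_simp
    rw [this, Real.rpow_one]
  rw [Finset.sum_congr rfl h3, Finset.sum_congr rfl h2] at h1
  have h4 : 0 ≤ ∑ i ∈ T, a i ^ ((s : ℝ) / (s + k)) :=
    Finset.sum_nonneg fun i hi => Real.rpow_nonneg (ha i hi) _
  have h5 : 0 ≤ ∑ i ∈ T, a i := Finset.sum_nonneg ha
  have h6 := Real.rpow_le_rpow (by positivity) h1 (show (0 : ℝ) ≤ (s : ℝ) / (s + k) by positivity)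
  rw [← Real.rpow_mul h4, Real.mul_rpow (by positivity) h5, ← Real.rpow_mul (by positivity)] at h6
  have e1 : ((s : ℝ) + k) / s * ((s : ℝ) / (s + k)) = 1 := by field_simp
  have e2 : (((s : ℝ) + k) / s - 1) * ((s : ℝ) / (s + k)) = (k : ℝ) / (s + k) := by
    field_simp
    ring
  rw [e1, e2, Real.rpow_one] at h6
  exact h6

lemma Rec_block {m l b : ℕ} (hl : l ≤ m) (hb : b < 2 ^ l) : (b + 1) * 2 ^ (m - l) ≤ 2 ^ m := by
  calc (b + 1) * 2 ^ (m - l) ≤ 2 ^ l * 2 ^ (m - l) := Nat.mul_le_mul_right _ hb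
    _ = 2 ^ m := by rw [← pow_add]; congr 1; omega

lemma Rec_cardNA (k q : ℕ) : (#(NA k q) : ℝ) ≤ 2 ^ (q * k) := by
  have h1 : #(NA k q) ≤ 2 ^ (q * k) := by
    unfold NA
    refine (Finset.card_filter_le _ _).trans ?_
    rw [Fintype.card_piFinset]
    simp [pow_mul]
  exact_mod_cast h1

theorem Rec_main (h1 : StPoint) (h2 : StOrth) (h3 : StHold) (h4 : StSub) : StRec := by
  intro k q s A hk hs hA
  obtain ⟨C1, hC1, hOrth⟩ := h2 k q s A hk hA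
  refine ⟨((2 : ℝ) ^ (q + 1)) ^ (2 * k) * 2 ^ (q * k) * C1, by positivity, ?_⟩
  intro m l hqm hklm D1 D2 hD1 hD2 hDec1 hDec2 n pr μ hμ t r hr hvan f hf
  have hμ' := hμ
  have hlm : l ≤ m := by
    have : l ≤ k * l := Nat.le_mul_of_pos_left _ (by omega)
    omega
  set P : ℕ := s + k with hP
  set p : ℕ := 2 * P with hp
  have hfU : ∀ j < 2 ^ m, TS (Set.univ : Set (E n)) (f j) := fun j hj =>
    TS_mono (hf j hj) (Set.subset_univ _)
  -- integrals of the pieces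
  set S : ℝ := ∑ j ∈ range (2 ^ m), ∫ x, ‖f j x‖ ^ p ∂μ with hS
  have hSnn : 0 ≤ S := Finset.sum_nonneg fun j _ => integral_nonneg fun x => by positivity
  -- the two kinds of blocks
  have hq : ∀ b < 2 ^ q, TS (Set.univ : Set (E n)) (fun x => bz (fun h => f h x) (2 ^ (m - q)) b) :=
    fun b hb => Rec_bzTS hfU _ _ (Rec_block hqm hb)
  have hl : ∀ b < 2 ^ l, TS (Set.univ : Set (E n)) (fun x => bz (fun h => f h x) (2 ^ (m - l)) b) :=
    fun b hb => Rec_bzTS hfU _ _ (Rec_block hlm hb)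
  have hNA : ∀ τ ∈ NA k q, ∀ i, τ i < 2 ^ q := by
    intro τ hτ i
    unfold NA at hτ
    rw [Finset.mem_filter, Fintype.mem_piFinset] at hτ
    exact Finset.mem_range.1 (hτ.1 i)
  have intA : ∀ b < 2 ^ q, Integrable (fun x => ‖bz (fun h => f h x) (2 ^ (m - q)) b‖ ^ p) μ := by
    intro b hb
    obtain ⟨B, hB⟩ := TS_bdd (hq b hb)
    refine Rec_int μ ((TS_cont (hq b hb)).norm.pow p) ⟨B ^ p, fun x => ?_⟩
    rw [abs_of_nonneg (by positivity)]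
    exact pow_le_pow_left₀ (norm_nonneg _) (hB x) _
  have intB : ∀ τ ∈ NA k q, ∀ b < 2 ^ l,
      Integrable (fun x => (∏ i, ‖bz (fun h => f h x) (2 ^ (m - q)) (τ i)‖ ^ 2) *
        ‖bz (fun h => f h x) (2 ^ (m - l)) b‖ ^ (2 * s)) μ := by
    intro τ hτ b hb
    have h5 : ∀ i, ∃ B : ℝ, ∀ x, ‖bz (fun h => f h x) (2 ^ (m - q)) (τ i)‖ ≤ B := fun i =>
      TS_bdd (hq _ (hNA τ hτ i))
    choose B hB using h5
    obtain ⟨B', hB'⟩ := TS_bdd (hl b hb)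
    refine Rec_int μ ?_ ⟨(∏ i, B i ^ 2) * B' ^ (2 * s), fun x => ?_⟩
    · refine Continuous.mul ?_ ((TS_cont (hl b hb)).norm.pow _)
      exact continuous_finsetProd _ fun i _ => (TS_cont (hq _ (hNA τ hτ i))).norm.pow 2
    · rw [abs_of_nonneg (by positivity)]
      have h6 : ∏ i, ‖bz (fun h => f h x) (2 ^ (m - q)) (τ i)‖ ^ 2 ≤ ∏ i, B i ^ 2 :=
        Finset.prod_le_prod (fun i _ => by positivity) fun i _ =>
          pow_le_pow_left₀ (norm_nonneg _) (hB i x) _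
      have h7 : ‖bz (fun h => f h x) (2 ^ (m - l)) b‖ ^ (2 * s) ≤ B' ^ (2 * s) :=
        pow_le_pow_left₀ (norm_nonneg _) (hB' x) _
      exact mul_le_mul h6 h7 (by positivity) ((Finset.prod_nonneg fun i _ => by positivity).trans h6)
  -- narrow part
  have hnar : ∑ b ∈ range (2 ^ q), ∫ x, ‖bz (fun h => f h x) (2 ^ (m - q)) b‖ ^ p ∂μ ≤ D1 * S := by
    have h5 : ∀ b ∈ range (2 ^ q), ∫ x, ‖bz (fun h => f h x) (2 ^ (m - q)) b‖ ^ p ∂μ ≤
        D1 * ∑ h ∈ Ico (b * 2 ^ (m - q)) ((b + 1) * 2 ^ (m - q)), ∫ x, ‖f h x‖ ^ p ∂μ :=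
      fun b hb => h4 k A p m q D1 hqm hDec1 n pr μ hμ t r hr hvan f hf b (Finset.mem_range.1 hb)
    refine (Finset.sum_le_sum h5).trans (le_of_eq ?_)
    rw [← Finset.mul_sum, Rec_tile, ← pow_add, Nat.add_sub_cancel' hqm]
  -- broad part
  set K : ℝ := 2 ^ (k * m) / 2 ^ (l * (k * (k + 1) / 2)) with hK
  have hKnn : 0 ≤ K := by positivity
  have hPR : ((P : ℕ) : ℝ) = (s : ℝ) + k := by rw [hP]; push_cast; ring
  have hPpos : (0 : ℝ) < (s : ℝ) + k := by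
    have : (1 : ℝ) ≤ s := by exact_mod_cast hs
    positivity
  have hbr1 : ∀ τ ∈ NA k q, ∀ b < 2 ^ l,
      ∫ x, (∏ i, ‖bz (fun h => f h x) (2 ^ (m - q)) (τ i)‖ ^ 2) *
        ‖bz (fun h => f h x) (2 ^ (m - l)) b‖ ^ (2 * s) ∂μ ≤
      C1 * K * ((((2 : ℝ) ^ m) ^ (P - 1) * S) ^ ((k : ℝ) / (s + k)) *
        (D2 * ∑ h ∈ Ico (b * 2 ^ (m - l)) ((b + 1) * 2 ^ (m - l)), ∫ x, ‖f h x‖ ^ p ∂μ) ^
          ((s : ℝ) / (s + k))) := by
    intro τ hτ b hb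
    have h5 := hOrth m l hqm hklm n pr μ hμ t r hr hvan f hf τ hτ b hb
    have h6 := h3 n μ hμ k s (2 ^ m) hk hs Nat.one_le_two_pow f
      (fun x => bz (fun h => f h x) (2 ^ (m - l)) b) (fun j hj => TS_cont (hfU j hj))
      (fun j hj => TS_bdd (hfU j hj)) (TS_cont (hl b hb)) (TS_bdd (hl b hb))
    have h7 := h4 k A p m l D2 hlm hDec2 n pr μ hμ t r hr hvan f hf b hb
    have h8 : 0 ≤ ∫ x, ‖bz (fun h => f h x) (2 ^ (m - l)) b‖ ^ p ∂μ :=
      integral_nonneg fun x => by positivity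
    have h9 := Real.rpow_le_rpow h8 h7 (show (0 : ℝ) ≤ (s : ℝ) / (s + k) by positivity)
    have h10 : C1 * 2 ^ (k * m) / 2 ^ (l * (k * (k + 1) / 2)) = C1 * K := by
      rw [hK]; ring
    rw [h10] at h5
    refine h5.trans (mul_le_mul_of_nonneg_left ?_ (by positivity))
    refine h6.trans ?_
    have h11 : (((2 ^ m : ℕ) : ℝ) ^ (s + k - 1) *
        ∑ h ∈ range (2 ^ m), ∫ x, ‖f h x‖ ^ (2 * (s + k)) ∂μ) = ((2 : ℝ) ^ m) ^ (P - 1) * S := by
      push_cast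
      rfl
    rw [h11]
    exact mul_le_mul_of_nonneg_left h9 (by positivity)
  have hbr2 : ∀ τ ∈ NA k q, ∑ b ∈ range (2 ^ l),
      ∫ x, (∏ i, ‖bz (fun h => f h x) (2 ^ (m - q)) (τ i)‖ ^ 2) *
        ‖bz (fun h => f h x) (2 ^ (m - l)) b‖ ^ (2 * s) ∂μ ≤
      C1 * K * ((2 : ℝ) ^ ((m : ℝ) * (s + k - 1) * k / (s + k))) *
            ((2 : ℝ) ^ ((l : ℝ) * k / (s + k))) * D2 ^ ((s : ℝ) / (s + k)) * S := by
    intro τ hτ
    set Sb : ℕ → ℝ := fun b =>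
      ∑ h ∈ Ico (b * 2 ^ (m - l)) ((b + 1) * 2 ^ (m - l)), ∫ x, ‖f h x‖ ^ p ∂μ with hSb
    have hSbnn : ∀ b, 0 ≤ Sb b := fun b =>
      Finset.sum_nonneg fun j _ => integral_nonneg fun x => by positivity
    have hSbS : ∑ b ∈ range (2 ^ l), Sb b = S := by
      rw [hSb, hS]
      simp only
      rw [Rec_tile, ← pow_add, Nat.add_sub_cancel' hlm]
    have h5 := Finset.sum_le_sum fun b (hb : b ∈ range (2 ^ l)) => hbr1 τ hτ b (Finset.mem_range.1 hb)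
    refine h5.trans ?_
    rw [← Finset.mul_sum, ← Finset.mul_sum]
    have h6 : ∑ b ∈ range (2 ^ l), (D2 * Sb b) ^ ((s : ℝ) / (s + k)) ≤
        D2 ^ ((s : ℝ) / (s + k)) * (((2 : ℝ) ^ ((l : ℝ) * k / (s + k))) * S ^ ((s : ℝ) / (s + k))) := by
      have h7 := Rec_conc (range (2 ^ l)) Sb (fun b _ => hSbnn b) k s hs
      rw [hSbS, Finset.card_range] at h7
      have h8 : ((2 ^ l : ℕ) : ℝ) ^ ((k : ℝ) / (s + k)) = (2 : ℝ) ^ ((l : ℝ) * k / (s + k)) := by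
        push_cast
        rw [← Real.rpow_natCast, ← Real.rpow_mul (by norm_num)]
        congr 1
        ring
      rw [h8] at h7
      calc ∑ b ∈ range (2 ^ l), (D2 * Sb b) ^ ((s : ℝ) / (s + k)) =
          D2 ^ ((s : ℝ) / (s + k)) * ∑ b ∈ range (2 ^ l), Sb b ^ ((s : ℝ) / (s + k)) := by
            rw [Finset.mul_sum]
            exact Finset.sum_congr rfl fun b _ => Real.mul_rpow hD2 (hSbnn b)
        _ ≤ _ := mul_le_mul_of_nonneg_left h7 (Real.rpow_nonneg hD2 _)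
    have h9 : (((2 : ℝ) ^ m) ^ (P - 1) * S) ^ ((k : ℝ) / (s + k)) =
        ((2 : ℝ) ^ ((m : ℝ) * (s + k - 1) * k / (s + k))) * S ^ ((k : ℝ) / (s + k)) := by
      rw [Real.mul_rpow (by positivity) hSnn]
      congr 1
      rw [← pow_mul, ← Real.rpow_natCast, ← Real.rpow_mul (by norm_num)]
      congr 1
      have h10 : ((m * (P - 1) : ℕ) : ℝ) = (m : ℝ) * (s + k - 1) := by
        rw [Nat.cast_mul, Nat.cast_sub (by omega), hPR]
        push_cast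
        ring
      rw [h10]
      ring
    have h11 : S ^ ((k : ℝ) / (s + k)) * S ^ ((s : ℝ) / (s + k)) = S := by
      rw [← Real.rpow_add_of_nonneg hSnn (by positivity) (by positivity)]
      have : (k : ℝ) / (s + k) + (s : ℝ) / (s + k) = 1 := by
        field_simp
        ring
      rw [this, Real.rpow_one]
    rw [h9]
    have h12 : 0 ≤ (2 : ℝ) ^ ((m : ℝ) * (s + k - 1) * k / (s + k)) * S ^ ((k : ℝ) / (s + k)) := by
      positivity
    calc C1 * K * ((2 : ℝ) ^ ((m : ℝ) * (s + k - 1) * k / (s + k)) * S ^ ((k : ℝ) / (s + k)) *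
          ∑ b ∈ range (2 ^ l), (D2 * Sb b) ^ ((s : ℝ) / (s + k)))
        ≤ C1 * K * ((2 : ℝ) ^ ((m : ℝ) * (s + k - 1) * k / (s + k)) * S ^ ((k : ℝ) / (s + k)) *
          (D2 ^ ((s : ℝ) / (s + k)) *
            (((2 : ℝ) ^ ((l : ℝ) * k / (s + k))) * S ^ ((s : ℝ) / (s + k))))) :=
          mul_le_mul_of_nonneg_left (mul_le_mul_of_nonneg_left h6 h12) (by positivity)
      _ = C1 * K * ((2 : ℝ) ^ ((m : ℝ) * (s + k - 1) * k / (s + k))) *
            ((2 : ℝ) ^ ((l : ℝ) * k / (s + k))) * D2 ^ ((s : ℝ) / (s + k)) *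
            (S ^ ((k : ℝ) / (s + k)) * S ^ ((s : ℝ) / (s + k))) := by ring
      _ = _ := by rw [h11]
  -- integrate the pointwise inequality
  set U : ℝ := C1 * K * ((2 : ℝ) ^ ((m : ℝ) * (s + k - 1) * k / (s + k))) *
            ((2 : ℝ) ^ ((l : ℝ) * k / (s + k))) * D2 ^ ((s : ℝ) / (s + k)) * S with hU
  have hUnn : 0 ≤ U := by positivity
  have hbr3 : ∑ τ ∈ NA k q, ∑ b ∈ range (2 ^ l),
      ∫ x, (∏ i, ‖bz (fun h => f h x) (2 ^ (m - q)) (τ i)‖ ^ 2) *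
        ‖bz (fun h => f h x) (2 ^ (m - l)) b‖ ^ (2 * s) ∂μ ≤ 2 ^ (q * k) * U := by
    refine (Finset.sum_le_sum hbr2).trans ?_
    rw [Finset.sum_const, nsmul_eq_mul]
    exact mul_le_mul_of_nonneg_right (Rec_cardNA k q) hUnn
  have intA' : Integrable (fun x => ∑ b ∈ range (2 ^ q),
      ‖bz (fun h => f h x) (2 ^ (m - q)) b‖ ^ p) μ :=
    integrable_finsetSum _ fun b hb => intA b (Finset.mem_range.1 hb)
  have intB' : ∀ τ ∈ NA k q, Integrable (fun x => ∑ b ∈ range (2 ^ l),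
      (∏ i, ‖bz (fun h => f h x) (2 ^ (m - q)) (τ i)‖ ^ 2) *
        ‖bz (fun h => f h x) (2 ^ (m - l)) b‖ ^ (2 * s)) μ := fun τ hτ =>
    integrable_finsetSum _ fun b hb => intB τ hτ b (Finset.mem_range.1 hb)
  have intB'' : Integrable (fun x => ∑ τ ∈ NA k q, ∑ b ∈ range (2 ^ l),
      (∏ i, ‖bz (fun h => f h x) (2 ^ (m - q)) (τ i)‖ ^ 2) *
        ‖bz (fun h => f h x) (2 ^ (m - l)) b‖ ^ (2 * s)) μ :=
    integrable_finsetSum _ intB'
  have hpt := fun x : E n => h1 k q l m s hk hs hqm hlm (fun j => f j x)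
  have hint : ∫ x, ‖∑ j ∈ range (2 ^ m), f j x‖ ^ p ∂μ ≤
      ∫ x, ((4 * (k : ℝ)) ^ p * ∑ b ∈ range (2 ^ q), ‖bz (fun h => f h x) (2 ^ (m - q)) b‖ ^ p +
        ((2 : ℝ) ^ (q + 1)) ^ (2 * k) * ((2 : ℝ) ^ l) ^ (2 * s - 1) *
          ∑ τ ∈ NA k q, ∑ b ∈ range (2 ^ l),
            (∏ i, ‖bz (fun h => f h x) (2 ^ (m - q)) (τ i)‖ ^ 2) *
              ‖bz (fun h => f h x) (2 ^ (m - l)) b‖ ^ (2 * s)) ∂μ :=
    integral_mono_of_nonneg (Filter.Eventually.of_forall fun x => by positivity)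
      ((intA'.const_mul _).add (intB''.const_mul _)) (Filter.Eventually.of_forall hpt)
  rw [integral_add (intA'.const_mul _) (intB''.const_mul _), integral_const_mul,
    integral_const_mul, integral_finsetSum _ (fun b hb => intA b (Finset.mem_range.1 hb)),
    integral_finsetSum _ intB'] at hint
  have hexch : ∑ τ ∈ NA k q, ∫ x, ∑ b ∈ range (2 ^ l),
      (∏ i, ‖bz (fun h => f h x) (2 ^ (m - q)) (τ i)‖ ^ 2) *
        ‖bz (fun h => f h x) (2 ^ (m - l)) b‖ ^ (2 * s) ∂μ =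
      ∑ τ ∈ NA k q, ∑ b ∈ range (2 ^ l),
      ∫ x, (∏ i, ‖bz (fun h => f h x) (2 ^ (m - q)) (τ i)‖ ^ 2) *
        ‖bz (fun h => f h x) (2 ^ (m - l)) b‖ ^ (2 * s) ∂μ :=
    Finset.sum_congr rfl fun τ hτ =>
      integral_finsetSum _ fun b hb => intB τ hτ b (Finset.mem_range.1 hb)
  rw [hexch] at hint
  refine hint.trans ?_
  have g1 := mul_le_mul_of_nonneg_left hnar (show (0 : ℝ) ≤ (4 * (k : ℝ)) ^ p by positivity)
  have g2 := mul_le_mul_of_nonneg_left hbr3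
    (show (0 : ℝ) ≤ ((2 : ℝ) ^ (q + 1)) ^ (2 * k) * ((2 : ℝ) ^ l) ^ (2 * s - 1) by positivity)
  refine (add_le_add g1 g2).trans (le_of_eq ?_)
  rw [hU]
  ring

end

end Pool.Agent.Helper57.MCd
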