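import Pool.Agent.Helper57.MCd.St

/-!
# Chapter MC of MP_795d31_lc, module Sep: power sums determine separated tuples
-/

set_option autoImplicit false

open MeasureTheory Filter Topology Finset

namespace Pool.Agent.Helper57.MCd

open Pool.Agent.Helper19.RP

noncomputable section

/-- elementary symmetric functions -/
def Sep_e {k : ℕ} (x : Fin k → ℝ) (j : ℕ) : ℝ := ∑ t ∈ powersetCard j univ, ∏ i ∈ t, x i

theorem Sep_e_eq {k : ℕ} (x : Fin k → ℝ) (j : ℕ) :
    Sep_e x j = MvPolynomial.aeval x (MvPolynomial.esymm (Fin k) ℝ j) := by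
  rw [MvPolynomial.aeval_esymm_eq_multiset_esymm, Finset.esymm_map_val, Sep_e]

theorem Sep_e_bound {k : ℕ} {x : Fin k → ℝ} (hx : ∀ i, |x i| ≤ 1) (j : ℕ) :
    |Sep_e x j| ≤ 2 ^ k := by
  have h1 : |Sep_e x j| ≤ ∑ t ∈ powersetCard j (univ : Finset (Fin k)), (1 : ℝ) := by
    refine (Finset.abs_sum_le_sum_abs _ _).trans (Finset.sum_le_sum fun t _ => ?_)
    rw [Finset.abs_prod]
    exact Finset.prod_le_one (fun i _ => abs_nonneg _) fun i _ => hx i
  refine h1.trans ?_
  rw [Finset.sum_const, nsmul_eq_mul, mul_one, card_powersetCard, card_univ, Fintype.card_fin]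
  exact_mod_cast Nat.choose_le_two_pow k j

theorem Sep_p_bound {k : ℕ} {x : Fin k → ℝ} (hx : ∀ i, |x i| ≤ 1) (a : ℕ) :
    |∑ i, x i ^ a| ≤ k := by
  refine (Finset.abs_sum_le_sum_abs _ _).trans ?_
  calc ∑ i, |x i ^ a| ≤ ∑ _i : Fin k, (1 : ℝ) := Finset.sum_le_sum fun i _ => by
        rw [abs_pow]
        exact pow_le_one₀ (abs_nonneg _) (hx i)
    _ = k := by simp

/-- Newton's identities. -/
theorem Sep_newton {k : ℕ} (x : Fin k → ℝ) (j : ℕ) :
    (j : ℝ) * Sep_e x j = (-1) ^ (j + 1) * ∑ a ∈ antidiagonal j with a.1 < j,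
      (-1) ^ a.1 * Sep_e x a.1 * ∑ i, x i ^ a.2 := by
  have h := congrArg (MvPolynomial.aeval x) (MvPolynomial.mul_esymm_eq_sum (Fin k) ℝ j)
  simp only [map_mul, map_natCast, map_pow, map_neg, map_one, map_sum,
    MvPolynomial.psum, MvPolynomial.aeval_X, ← Sep_e_eq] at h
  exact h

/-- Vieta's formula. -/
theorem Sep_vieta {k : ℕ} (x : Fin k → ℝ) (c : ℝ) :
    ∏ i, (c - x i) = ∑ j ∈ range (k + 1), (-1) ^ j * (Sep_e x j * c ^ (k - j)) := by
  have h := congrArg (Polynomial.eval c)
    (Multiset.prod_X_sub_X_eq_sum_esymm ((univ : Finset (Fin k)).val.map x))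
  rw [Polynomial.eval_multiset_prod, Polynomial.eval_finsetSum, Multiset.map_map,
    Multiset.map_map, Multiset.card_map, Finset.card_val, card_univ, Fintype.card_fin] at h
  have h1 : ∏ i, (c - x i) = (Multiset.map ((Polynomial.eval c ∘ fun t => Polynomial.X -
      Polynomial.C t) ∘ x) (univ : Finset (Fin k)).val).prod := by
    refine Finset.prod_congr rfl fun i _ => ?_
    simp
  rw [h1, h]
  refine Finset.sum_congr rfl fun j _ => ?_
  rw [Finset.esymm_map_val]
  simp only [Polynomial.eval_mul, Polynomial.eval_pow, Polynomial.eval_neg, Polynomial.eval_one,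
    Polynomial.eval_C, Polynomial.eval_X, Sep_e]

/-- The elementary symmetric functions are close if the power sums are close. -/
theorem Sep_close (k j : ℕ) : ∃ C : ℝ, 0 ≤ C ∧ ∀ x y : Fin k → ℝ,
    (∀ i, |x i| ≤ 1) → (∀ i, |y i| ≤ 1) → ∀ ε : ℝ, 0 ≤ ε →
    (∀ a ∈ Icc 1 k, |∑ i, x i ^ a - ∑ i, y i ^ a| ≤ ε) → j ≤ k →
      |Sep_e x j - Sep_e y j| ≤ C * ε := by
  induction j using Nat.strong_induction_on with
  | _ j ih =>
    rcases Nat.eq_zero_or_pos j with hj0 | hj0
    · subst hj0
      refine ⟨0, le_rfl, fun x y _ _ ε _ _ _ => ?_⟩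
      simp [Sep_e]
    · choose! C hC0 hC using ih
      refine ⟨∑ a ∈ antidiagonal j with a.1 < j, (C a.1 * k + 2 ^ k), ?_, ?_⟩
      · refine Finset.sum_nonneg fun a ha => ?_
        have := hC0 a.1 (mem_filter.1 ha).2
        positivity
      · intro x y hx hy ε hε h hjk
        have hj1 : (1 : ℝ) ≤ j := by exact_mod_cast hj0
        have h1 : (j : ℝ) * (Sep_e x j - Sep_e y j) = (-1) ^ (j + 1) *
            ∑ a ∈ antidiagonal j with a.1 < j, (-1) ^ a.1 * (Sep_e x a.1 * ∑ i, x i ^ a.2 -
              Sep_e y a.1 * ∑ i, y i ^ a.2) := by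
          rw [mul_sub, Sep_newton, Sep_newton, ← mul_sub, ← Finset.sum_sub_distrib]
          congr 1
          exact Finset.sum_congr rfl fun a _ => by ring
        have h2 : (j : ℝ) * |Sep_e x j - Sep_e y j| ≤
            (∑ a ∈ antidiagonal j with a.1 < j, (C a.1 * k + 2 ^ k)) * ε := by
          calc (j : ℝ) * |Sep_e x j - Sep_e y j| = |(j : ℝ) * (Sep_e x j - Sep_e y j)| := by
                rw [abs_mul, Nat.abs_cast]
            _ ≤ ∑ a ∈ antidiagonal j with a.1 < j, |Sep_e x a.1 * ∑ i, x i ^ a.2 -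
                  Sep_e y a.1 * ∑ i, y i ^ a.2| := by
                rw [h1, abs_mul, abs_pow, abs_neg, abs_one, one_pow, one_mul]
                refine (Finset.abs_sum_le_sum_abs _ _).trans (le_of_eq ?_)
                refine Finset.sum_congr rfl fun a _ => ?_
                rw [abs_mul, abs_pow, abs_neg, abs_one, one_pow, one_mul]
            _ ≤ ∑ a ∈ antidiagonal j with a.1 < j, (C a.1 * k + 2 ^ k) * ε := by
                refine Finset.sum_le_sum fun a ha => ?_
                obtain ⟨ha1, ha2⟩ := mem_filter.1 ha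
                rw [HasAntidiagonal.mem_antidiagonal] at ha1
                have e1 := hC a.1 ha2 x y hx hy ε hε h (by omega)
                have e2 := h a.2 (mem_Icc.2 ⟨by omega, by omega⟩)
                have e3 := Sep_p_bound hx a.2
                have e4 := Sep_e_bound hy a.1
                have e5 := hC0 a.1 ha2
                have e6 : Sep_e x a.1 * ∑ i, x i ^ a.2 - Sep_e y a.1 * ∑ i, y i ^ a.2 =
                    (Sep_e x a.1 - Sep_e y a.1) * ∑ i, x i ^ a.2 +
                      Sep_e y a.1 * (∑ i, x i ^ a.2 - ∑ i, y i ^ a.2) := by ring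
                rw [e6]
                refine (abs_add_le _ _).trans ?_
                rw [abs_mul, abs_mul]
                calc |Sep_e x a.1 - Sep_e y a.1| * |∑ i, x i ^ a.2| +
                      |Sep_e y a.1| * |∑ i, x i ^ a.2 - ∑ i, y i ^ a.2|
                    ≤ (C a.1 * ε) * k + 2 ^ k * ε := by gcongr
                  _ = _ := by ring
            _ = _ := by rw [Finset.sum_mul]
        refine le_trans ?_ h2
        exact le_mul_of_one_le_left (abs_nonneg _) hj1

theorem Sep_main : StSep := by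
  intro k g hg
  choose C hC0 hC using Sep_close k
  set C' : ℝ := ∑ j ∈ range (k + 1), C j with hC'
  have hC'0 : 0 ≤ C' := Finset.sum_nonneg fun j _ => hC0 j
  refine ⟨(C' + 1) / g ^ (k - 1), by positivity, ?_⟩
  intro x y hx hy hsep ε hε h i0
  -- the value of the polynomial of `x` at `y i0`
  have h1 : |∏ i, (y i0 - x i)| ≤ C' * ε := by
    have h2 : ∏ i, (y i0 - y i) = 0 := Finset.prod_eq_zero (mem_univ i0) (sub_self _)
    have h3 : ∏ i, (y i0 - x i) = ∏ i, (y i0 - x i) - ∏ i, (y i0 - y i) := by rw [h2, sub_zero]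
    rw [h3, Sep_vieta, Sep_vieta, ← Finset.sum_sub_distrib]
    refine (Finset.abs_sum_le_sum_abs _ _).trans ?_
    rw [hC', Finset.sum_mul]
    refine Finset.sum_le_sum fun j hj => ?_
    rw [mem_range] at hj
    have h4 : (-1 : ℝ) ^ j * (Sep_e x j * y i0 ^ (k - j)) -
        (-1) ^ j * (Sep_e y j * y i0 ^ (k - j)) =
        (-1) ^ j * ((Sep_e x j - Sep_e y j) * y i0 ^ (k - j)) := by ring
    rw [h4, abs_mul, abs_pow, abs_neg, abs_one, one_pow, one_mul, abs_mul]
    have h5 := hC j x y hx hy ε hε h (by omega)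
    have h6 : |y i0 ^ (k - j)| ≤ 1 := by
      rw [abs_pow]
      exact pow_le_one₀ (abs_nonneg _) (hy i0)
    calc |Sep_e x j - Sep_e y j| * |y i0 ^ (k - j)| ≤ (C j * ε) * 1 := by
          gcongr
          exact mul_nonneg (hC0 j) hε
      _ = C j * ε := mul_one _
  have h7 : |x i0 - y i0| * g ^ (k - 1) ≤ |∏ i, (y i0 - x i)| := by
    rw [Finset.abs_prod, ← Finset.mul_prod_erase univ _ (mem_univ i0), abs_sub_comm (x i0)]
    refine mul_le_mul_of_nonneg_left ?_ (abs_nonneg _)
    have h8 : (univ.erase i0).card = k - 1 := by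
      rw [card_erase_of_mem (mem_univ i0), card_univ, Fintype.card_fin]
    rw [← h8, ← Finset.prod_const]
    refine Finset.prod_le_prod (fun _ _ => hg.le) fun i hi => ?_
    exact hsep i0 i (ne_of_mem_erase hi).symm
  rw [div_mul_eq_mul_div, le_div_iff₀ (by positivity)]
  nlinarith

end

end Pool.Agent.Helper57.MCd
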