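import Pool.Agent.Helper57.MCd.TSlem

/-!
# Chapter MC of MP_795d31_lc, module Sub: passing to a block of arcs
-/

set_option autoImplicit false

open MeasureTheory Filter Topology Finset

namespace Pool.Agent.Helper57.MCd

open Pool.Agent.Helper19.RP

noncomputable section

theorem Sub_main : StSub := by
  intro k A p m l D hlm hD n pr μ hμ t r hr hvan f hfam b hb
  have hmul : ∀ j < 2 ^ (m - l), b * 2 ^ (m - l) + j < 2 ^ m := by
    intro j hj
    calc b * 2 ^ (m - l) + j < b * 2 ^ (m - l) + 2 ^ (m - l) := by omega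
      _ = (b + 1) * 2 ^ (m - l) := by ring
      _ ≤ 2 ^ l * 2 ^ (m - l) := Nat.mul_le_mul_right _ hb
      _ = 2 ^ m := by rw [← pow_add]; congr 1; omega
  have hshift : ∀ j : ℕ, t + ((b * 2 ^ (m - l) : ℕ) : ℝ) * r + (j : ℝ) * r =
      t + ((b * 2 ^ (m - l) + j : ℕ) : ℝ) * r := by
    intro j
    push_cast
    ring
  have h := hD n pr μ hμ (t + ((b * 2 ^ (m - l) : ℕ) : ℝ) * r) r hr ?_
    (fun j => f (b * 2 ^ (m - l) + j)) ?_
  · have hI : (b + 1) * 2 ^ (m - l) - b * 2 ^ (m - l) = 2 ^ (m - l) := by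
      rw [← Nat.sub_mul]
      simp
    unfold bz
    simp only [Finset.sum_Ico_eq_sum_range, hI]
    exact h
  · rintro ζ ⟨j, hj, hz⟩
    refine hvan ζ ⟨b * 2 ^ (m - l) + j, hmul j hj, ?_⟩
    rw [← hshift j]
    exact hz
  · intro j hj
    rw [hshift j]
    exact hfam _ (hmul j hj)

end

end Pool.Agent.Helper57.MCd
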