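import Pool.Agent.Helper57.MCd.TSlem

/-!
# Chapter MC of MP_795d31_lc, module Triv: trivial constant
-/

set_option autoImplicit false

open MeasureTheory Filter Topology Finset

namespace Pool.Agent.Helper57.MCd

open Pool.Agent.Helper19.RP

noncomputable section

theorem norm_sum_pow_le {ι : Type*} (s : Finset ι) (z : ι → ℂ) (p : ℕ) (hp : 1 ≤ p) :
    ‖∑ i ∈ s, z i‖ ^ p ≤ (#s : ℝ) ^ (p - 1) * ∑ i ∈ s, ‖z i‖ ^ p := by
  have h1 : ‖∑ i ∈ s, z i‖ ^ p ≤ (∑ i ∈ s, ‖z i‖) ^ p :=
    pow_le_pow_left₀ (norm_nonneg _) (norm_sum_le _ _) _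
  refine h1.trans ?_
  obtain ⟨q, rfl⟩ : ∃ q, p = q + 1 := ⟨p - 1, by omega⟩
  simpa using pow_sum_le_card_mul_sum_pow (s := s) (f := fun i => ‖z i‖) (fun i _ => norm_nonneg _) q

theorem Triv_main : StTriv := by
  intro k A p m hp n pr μ hμ t s hs hvan f hf
  have := hμ
  have hcont : ∀ j < 2 ^ m, Continuous (f j) := fun j hj => TS_cont (hf j hj)
  have hint : ∀ j < 2 ^ m, Integrable (fun x => ‖f j x‖ ^ p) μ := by
    intro j hj
    obtain ⟨B, hB⟩ := TS_bdd (hf j hj)
    refine Integrable.of_bound (((hcont j hj).norm.pow p).aestronglyMeasurable) (B ^ p)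
      (Filter.Eventually.of_forall fun x => ?_)
    rw [norm_pow, norm_norm]
    exact pow_le_pow_left₀ (norm_nonneg _) (hB x) _
  have hsum : ∫ x, ∑ j ∈ range (2 ^ m), ‖f j x‖ ^ p ∂μ =
      ∑ j ∈ range (2 ^ m), ∫ x, ‖f j x‖ ^ p ∂μ :=
    integral_finsetSum _ fun j hj => hint j (Finset.mem_range.1 hj)
  rw [← hsum, ← integral_const_mul]
  refine integral_mono_of_nonneg (Filter.Eventually.of_forall fun x => by positivity) ?_
    (Filter.Eventually.of_forall fun x => ?_)
  · exact (integrable_finsetSum _ fun j hj => hint j (Finset.mem_range.1 hj)).const_mul _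
  · have := norm_sum_pow_le (range (2 ^ m)) (fun j => f j x) p hp
    rw [Finset.card_range] at this
    simp only
    refine this.trans (le_of_eq ?_)
    rw [pow_mul]
    push_cast
    ring

end

end Pool.Agent.Helper57.MCd
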