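import Pool.Agent.Helper57.MCd.St

/-!
# Chapter MC of MP_795d31_lc, module Almost: almost orthogonality
-/

set_option autoImplicit false

open MeasureTheory Filter Topology Finset

namespace Pool.Agent.Helper57.MCd

open Pool.Agent.Helper19.RP

noncomputable section

lemma Almost_int {n : ℕ} (μ : Measure (E n)) [IsFiniteMeasure μ] {g h : E n → ℂ}
    (hg : Continuous g) (hgb : ∃ B : ℝ, ∀ x, ‖g x‖ ≤ B) (hh : Continuous h)
    (hhb : ∃ B : ℝ, ∀ x, ‖h x‖ ≤ B) :
    Integrable (fun x => g x * (starRingEnd ℂ) (h x)) μ := by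
  obtain ⟨B, hB⟩ := hgb
  obtain ⟨B', hB'⟩ := hhb
  refine Integrable.of_bound (C := B * B') ?_ (Filter.Eventually.of_forall fun x => ?_)
  · exact (hg.mul (Complex.continuous_conj.comp hh)).aestronglyMeasurable
  · rw [norm_mul, RCLike.norm_conj]
    have h1 : 0 ≤ B := (norm_nonneg _).trans (hB x)
    exact mul_le_mul (hB x) (hB' x) (norm_nonneg _) h1

lemma Almost_int2 {n : ℕ} (μ : Measure (E n)) [IsFiniteMeasure μ] {g : E n → ℂ}
    (hg : Continuous g) (hgb : ∃ B : ℝ, ∀ x, ‖g x‖ ≤ B) :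
    Integrable (fun x => ‖g x‖ ^ 2) μ := by
  obtain ⟨B, hB⟩ := hgb
  refine Integrable.of_bound (C := B ^ 2) ?_ (Filter.Eventually.of_forall fun x => ?_)
  · exact (hg.norm.pow 2).aestronglyMeasurable
  · rw [norm_pow, norm_norm]
    exact pow_le_pow_left₀ (norm_nonneg _) (hB x) 2

theorem Almost_main : StAlmost := by
  intro n μ hμ ι T g R D hD hc hb h0 hcard
  have := hμ
  classical
  set I : ι → ι → ℂ := fun i j => ∫ x, g i x * (starRingEnd ℂ) (g j x) ∂μ with hI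
  set a : ι → ℝ := fun i => ∫ x, ‖g i x‖ ^ 2 ∂μ with ha
  have ha0 : ∀ i, 0 ≤ a i := fun i => integral_nonneg fun x => by positivity
  have hint : ∀ i ∈ T, ∀ j ∈ T, Integrable (fun x => g i x * (starRingEnd ℂ) (g j x)) μ :=
    fun i hi j hj => Almost_int μ (hc i hi) (hb i hi) (hc j hj) (hb j hj)
  have hint2 : ∀ i ∈ T, Integrable (fun x => ‖g i x‖ ^ 2) μ :=
    fun i hi => Almost_int2 μ (hc i hi) (hb i hi)
  have hsymm : ∀ i j, I i j = (starRingEnd ℂ) (I j i) := by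
    intro i j
    simp only [hI]
    rw [← integral_conj]
    refine integral_congr_ae (Filter.Eventually.of_forall fun x => ?_)
    simp only [map_mul, Complex.conj_conj]
    ring
  have h1 : ((∫ x, ‖∑ i ∈ T, g i x‖ ^ 2 ∂μ : ℝ) : ℂ) = ∑ i ∈ T, ∑ j ∈ T, I i j := by
    rw [← integral_complex_ofReal]
    have e1 : ∀ x, (((‖∑ i ∈ T, g i x‖ ^ 2 : ℝ)) : ℂ) =
        ∑ i ∈ T, ∑ j ∈ T, g i x * (starRingEnd ℂ) (g j x) := by
      intro x
      rw [← Finset.sum_mul_sum, ← map_sum, Complex.mul_conj, Complex.normSq_eq_norm_sq]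
    calc ∫ x, ((‖∑ i ∈ T, g i x‖ ^ 2 : ℝ) : ℂ) ∂μ
        = ∫ x, ∑ i ∈ T, ∑ j ∈ T, g i x * (starRingEnd ℂ) (g j x) ∂μ :=
          integral_congr_ae (Filter.Eventually.of_forall fun x => e1 x)
      _ = ∑ i ∈ T, ∑ j ∈ T, I i j := by
          rw [integral_finsetSum _ (fun i hi => integrable_finsetSum _ (fun j hj => hint i hi j hj))]
          refine Finset.sum_congr rfl fun i hi => ?_
          rw [integral_finsetSum _ (fun j hj => hint i hi j hj)]
  have h2 : ∀ i ∈ T, ∀ j ∈ T, ‖I i j‖ ≤ (a i + a j) / 2 := by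
    intro i hi j hj
    simp only [hI, ha]
    refine (norm_integral_le_integral_norm _).trans ?_
    rw [← integral_add (hint2 i hi) (hint2 j hj), ← integral_div]
    refine integral_mono_of_nonneg (Filter.Eventually.of_forall fun x => norm_nonneg _)
      (((hint2 i hi).add (hint2 j hj)).div_const 2) (Filter.Eventually.of_forall fun x => ?_)
    simp only [norm_mul, RCLike.norm_conj]
    nlinarith [sq_nonneg (‖g i x‖ - ‖g j x‖)]
  have h3 : ∀ i ∈ T, (#(T.filter (fun j => I i j ≠ 0)) : ℝ) ≤ D := by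
    intro i hi
    refine hcard i hi _ (Finset.filter_subset _ _) fun j hj => ?_
    rw [Finset.mem_filter] at hj
    by_contra hR
    exact hj.2 (h0 i hi j hj.1 hR)
  have h4 : ∫ x, ‖∑ i ∈ T, g i x‖ ^ 2 ∂μ ≤
      ∑ i ∈ T, ∑ j ∈ T, (if I i j ≠ 0 then (a i + a j) / 2 else 0) := by
    have e0 : 0 ≤ ∫ x, ‖∑ i ∈ T, g i x‖ ^ 2 ∂μ := integral_nonneg fun x => by positivity
    calc ∫ x, ‖∑ i ∈ T, g i x‖ ^ 2 ∂μ
        = ‖((∫ x, ‖∑ i ∈ T, g i x‖ ^ 2 ∂μ : ℝ) : ℂ)‖ := by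
          rw [Complex.norm_real, Real.norm_of_nonneg e0]
      _ = ‖∑ i ∈ T, ∑ j ∈ T, I i j‖ := by rw [h1]
      _ ≤ ∑ i ∈ T, ∑ j ∈ T, ‖I i j‖ :=
          (norm_sum_le _ _).trans (Finset.sum_le_sum fun i _ => norm_sum_le _ _)
      _ ≤ _ := by
          refine Finset.sum_le_sum fun i hi => Finset.sum_le_sum fun j hj => ?_
          split_ifs with h
          · exact h2 i hi j hj
          · rw [not_not] at h
            rw [h, norm_zero]
  have h5 : ∑ i ∈ T, ∑ j ∈ T, (if I i j ≠ 0 then (a i + a j) / 2 else 0) =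
      (∑ i ∈ T, ∑ j ∈ T, (if I i j ≠ 0 then a i / 2 else 0)) +
        ∑ i ∈ T, ∑ j ∈ T, (if I i j ≠ 0 then a j / 2 else 0) := by
    simp only [← Finset.sum_add_distrib]
    refine Finset.sum_congr rfl fun i _ => Finset.sum_congr rfl fun j _ => ?_
    split_ifs <;> ring
  have h6 : ∑ i ∈ T, ∑ j ∈ T, (if I i j ≠ 0 then a i / 2 else 0) ≤ D * ∑ i ∈ T, a i / 2 := by
    rw [Finset.mul_sum]
    refine Finset.sum_le_sum fun i hi => ?_
    rw [← Finset.sum_filter, Finset.sum_const, nsmul_eq_mul]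
    exact mul_le_mul_of_nonneg_right (h3 i hi) (by linarith [ha0 i])
  have h7 : ∑ i ∈ T, ∑ j ∈ T, (if I i j ≠ 0 then a j / 2 else 0) ≤ D * ∑ i ∈ T, a i / 2 := by
    rw [Finset.sum_comm]
    refine le_trans (le_of_eq ?_) h6
    refine Finset.sum_congr rfl fun i _ => Finset.sum_congr rfl fun j _ => ?_
    have : I j i ≠ 0 ↔ I i j ≠ 0 := by
      rw [hsymm i j]
      simp
    by_cases h : I i j ≠ 0
    · rw [if_pos h, if_pos (this.2 h)]
    · rw [if_neg h, if_neg (fun h' => h (this.1 h'))]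
  calc ∫ x, ‖∑ i ∈ T, g i x‖ ^ 2 ∂μ ≤ D * ∑ i ∈ T, a i / 2 + D * ∑ i ∈ T, a i / 2 := by
        rw [h5] at h4
        linarith
    _ = D * ∑ i ∈ T, a i := by
        rw [← Finset.sum_div]
        ring

end

end Pool.Agent.Helper57.MCd
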