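import Pool.Agent.Helper57.MCd.Point
import Pool.Agent.Helper57.MCd.Sep
import Pool.Agent.Helper57.MCd.Cnt
import Pool.Agent.Helper57.MCd.Geo
import Pool.Agent.Helper57.MCd.Cross
import Pool.Agent.Helper57.MCd.Almost
import Pool.Agent.Helper57.MCd.Orth
import Pool.Agent.Helper57.MCd.Hold
import Pool.Agent.Helper57.MCd.Sub
import Pool.Agent.Helper57.MCd.Triv
import Pool.Agent.Helper57.MCd.Rec
import Pool.Agent.Helper57.MCd.Num
import Pool.Agent.Helper57.MCd.Fin

/-!
# Chapter MC of MP_795d31_lc: the chapter is complete
-/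

set_option autoImplicit false

namespace Pool.Agent.Helper57.MCd

open Pool.Agent.Helper19.RP

/-- lossy decoupling for the moment curve in every dimension -/
theorem MC_all (k : ℕ) (hk : 1 ≤ k) : MC k :=
  Fin_main
    (Rec_main Point_main (Orth_main (Cross_main Geo_main) Almost_main (Cnt_main Sep_main))
      Hold_main Sub_main)
    Triv_main Num_main k hk

end Pool.Agent.Helper57.MCd
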