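import Pool.Agent.Helper19.RP.Iface

/-!
# Chapter MC of MP_795d31_lc: lossy `ℓ^p` decoupling for the moment curve, definitions
-/

set_option autoImplicit false

open MeasureTheory Filter Topology Finset

namespace Pool.Agent.Helper57.MCd

open Pool.Agent.Helper19.RP

noncomputable section

/-- hypothesis of `DecP` on the measure -/
def Van (k : ℕ) (A : ℝ) (N : ℕ) {n : ℕ} (pr : E n →+ E k) (μ : Measure (E n)) (t r : ℝ) : Prop :=
  ∀ ζ : E n, (∃ j < N, pr ζ ∉ dbox k A (t + (j : ℝ) * r) r) → ∫ x, ch (dt x ζ) ∂μ = 0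

/-- hypothesis of `DecP` on the functions -/
def Fam (k : ℕ) (A : ℝ) (N : ℕ) {n : ℕ} (pr : E n →+ E k) (t r : ℝ) (f : ℕ → E n → ℂ) : Prop :=
  ∀ j < N, TS (pr ⁻¹' (box k A (t + (j : ℝ) * r) r)) (f j)

/-- sum over the block number `b` of length `L` -/
def bz (z : ℕ → ℂ) (L b : ℕ) : ℂ := ∑ j ∈ Ico (b * L) ((b + 1) * L), z j

/-- `k`-tuples of pairwise non-adjacent blocks -/
def NA (k q : ℕ) : Finset (Fin k → ℕ) :=
  (Fintype.piFinset (fun _ : Fin k => range (2 ^ q))).filter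
    (fun τ => ∀ i i' : Fin k, i ≠ i' → τ i + 2 ≤ τ i' ∨ τ i' + 2 ≤ τ i)

/-- the relation between two tuples of arcs which do not interact orthogonally -/
def Rel (k : ℕ) (C : ℝ) (L j0 : ℕ) (j j' : Fin k → ℕ) : Prop :=
  ∀ a ∈ Icc 1 k, |∑ i, (((j i : ℝ) - j0) ^ a - ((j' i : ℝ) - j0) ^ a)| ≤ C * (L : ℝ) ^ a

/-- value at `(X - c)^a` of the linear functional on polynomials with value `e` at `1` and
`y b` at `X^(b+1)` -/
def sh (k : ℕ) (e : ℝ) (y : E k) (c : ℝ) (a : ℕ) : ℝ :=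
  e * (-c) ^ a + ∑ b : Fin k, (a.choose (b.1 + 1) : ℝ) * (-c) ^ (a - (b.1 + 1)) * y b

end

end Pool.Agent.Helper57.MCd
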