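import Pool.Agent.Helper57.MCd.Defs

/-!
# Chapter MC of MP_795d31_lc: statements of the modules
-/

set_option autoImplicit false

open MeasureTheory Filter Topology Finset

namespace Pool.Agent.Helper57.MCd

open Pool.Agent.Helper19.RP

noncomputable section

/-- module Point: broad-narrow inequality for complex numbers -/
def StPoint : Prop :=
  ∀ (k q l m s : ℕ), 1 ≤ k → 1 ≤ s → q ≤ m → l ≤ m → ∀ z : ℕ → ℂ,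
    ‖∑ j ∈ range (2 ^ m), z j‖ ^ (2 * (s + k)) ≤
      (4 * (k : ℝ)) ^ (2 * (s + k)) *
          ∑ b ∈ range (2 ^ q), ‖bz z (2 ^ (m - q)) b‖ ^ (2 * (s + k)) +
        ((2 : ℝ) ^ (q + 1)) ^ (2 * k) * ((2 : ℝ) ^ l) ^ (2 * s - 1) *
          ∑ τ ∈ NA k q, ∑ b ∈ range (2 ^ l),
            (∏ i, ‖bz z (2 ^ (m - q)) (τ i)‖ ^ 2) * ‖bz z (2 ^ (m - l)) b‖ ^ (2 * s)

/-- module Sep: power sums determine separated tuples -/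
def StSep : Prop :=
  ∀ (k : ℕ) (g : ℝ), 0 < g → ∃ C : ℝ, 0 < C ∧ ∀ x y : Fin k → ℝ,
    (∀ i, |x i| ≤ 1) → (∀ i, |y i| ≤ 1) → (∀ i i', i ≠ i' → g ≤ |y i - x i'|) →
    ∀ ε : ℝ, 0 ≤ ε → (∀ a ∈ Icc 1 k, |∑ i, x i ^ a - ∑ i, y i ^ a| ≤ ε) →
      ∀ i, |x i - y i| ≤ C * ε

/-- module Cnt: number of tuples in relation with a given one -/
def StCnt : Prop :=
  ∀ (k q : ℕ) (C1 : ℝ), 1 ≤ k → 0 < C1 → ∃ C2 : ℝ, 0 < C2 ∧ ∀ m l : ℕ, q ≤ m → k * l ≤ m →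
    ∀ τ ∈ NA k q, ∀ j0 < 2 ^ m, ∀ (j : Fin k → ℕ) (T : Finset (Fin k → ℕ)),
      (∀ j' ∈ T, ∀ i, j' i ∈ Ico (τ i * 2 ^ (m - q)) ((τ i + 1) * 2 ^ (m - q))) →
      (∀ j' ∈ T, Rel k C1 (2 ^ (m - l)) j0 j j') →
      (#T : ℝ) ≤ C2 * 2 ^ (k * m) / 2 ^ (l * (k * (k + 1) / 2))

/-- module Geo: nonvanishing of the cross terms implies the relation -/
def StGeo : Prop :=
  ∀ (k s : ℕ) (A : ℝ), 1 ≤ k → 1 ≤ A → ∃ C1 : ℝ, 0 < C1 ∧ ∀ m l : ℕ, k * l ≤ m →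
    ∀ t r : ℝ, 0 < r → ∀ b < 2 ^ l, ∀ j j' : Fin k → ℕ, (∀ i, j i < 2 ^ m) → (∀ i, j' i < 2 ^ m) →
    ∀ ξ ξ' : Fin k → E k, (∀ i, ξ i ∈ box k A (t + (j i : ℝ) * r) r) →
      (∀ i, ξ' i ∈ box k A (t + (j' i : ℝ) * r) r) →
    ∀ η η' : Fin s → E k,
      (∀ u, ∃ h : ℕ, b * 2 ^ (m - l) ≤ h ∧ h < (b + 1) * 2 ^ (m - l) ∧
        η u ∈ box k A (t + (h : ℝ) * r) r) →
      (∀ u, ∃ h : ℕ, b * 2 ^ (m - l) ≤ h ∧ h < (b + 1) * 2 ^ (m - l) ∧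
        η' u ∈ box k A (t + (h : ℝ) * r) r) →
      (∑ i, ξ i + ∑ u, η u) - (∑ i, ξ' i + ∑ u, η' u) ∈
        dbox k A (t + ((b * 2 ^ (m - l) : ℕ) : ℝ) * r) r →
      Rel k C1 (2 ^ (m - l)) (b * 2 ^ (m - l)) j j'

/-- module Cross: vanishing of cross terms (uses StGeo) -/
def StCross : Prop :=
  ∀ (k s : ℕ) (A : ℝ), 1 ≤ k → 1 ≤ A → ∃ C1 : ℝ, 0 < C1 ∧ ∀ m l : ℕ, k * l ≤ m →
    ∀ (n : ℕ) (pr : E n →+ E k) (μ : Measure (E n)), IsFiniteMeasure μ → ∀ t r : ℝ, 0 < r →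
    Van k A (2 ^ m) pr μ t r → ∀ f : ℕ → E n → ℂ, Fam k A (2 ^ m) pr t r f →
    ∀ b < 2 ^ l, ∀ j j' : Fin k → ℕ, (∀ i, j i < 2 ^ m) → (∀ i, j' i < 2 ^ m) →
      ¬ Rel k C1 (2 ^ (m - l)) (b * 2 ^ (m - l)) j j' →
      ∫ x, ((∏ i, f (j i) x) * bz (fun h => f h x) (2 ^ (m - l)) b ^ s) *
        (starRingEnd ℂ) ((∏ i, f (j' i) x) * bz (fun h => f h x) (2 ^ (m - l)) b ^ s) ∂μ = 0

/-- module Almost: almost orthogonality -/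
def StAlmost : Prop :=
  ∀ (n : ℕ) (μ : Measure (E n)), IsFiniteMeasure μ → ∀ (ι : Type) (T : Finset ι)
    (g : ι → E n → ℂ) (R : ι → ι → Prop) (D : ℝ), 0 ≤ D →
    (∀ i ∈ T, Continuous (g i)) → (∀ i ∈ T, ∃ B : ℝ, ∀ x, ‖g i x‖ ≤ B) →
    (∀ i ∈ T, ∀ j ∈ T, ¬ R i j → ∫ x, g i x * (starRingEnd ℂ) (g j x) ∂μ = 0) →
    (∀ i ∈ T, ∀ U ⊆ T, (∀ j ∈ U, R i j) → (#U : ℝ) ≤ D) →
    ∫ x, ‖∑ i ∈ T, g i x‖ ^ 2 ∂μ ≤ D * ∑ i ∈ T, ∫ x, ‖g i x‖ ^ 2 ∂μ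

/-- module Orth (uses StCross, StAlmost, StCnt) -/
def StOrth : Prop :=
  ∀ (k q s : ℕ) (A : ℝ), 1 ≤ k → 1 ≤ A → ∃ C : ℝ, 0 < C ∧ ∀ m l : ℕ, q ≤ m → k * l ≤ m →
    ∀ (n : ℕ) (pr : E n →+ E k) (μ : Measure (E n)), IsFiniteMeasure μ → ∀ t r : ℝ, 0 < r →
    Van k A (2 ^ m) pr μ t r → ∀ f : ℕ → E n → ℂ, Fam k A (2 ^ m) pr t r f →
    ∀ τ ∈ NA k q, ∀ b < 2 ^ l,
      ∫ x, (∏ i, ‖bz (fun h => f h x) (2 ^ (m - q)) (τ i)‖ ^ 2) *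
          ‖bz (fun h => f h x) (2 ^ (m - l)) b‖ ^ (2 * s) ∂μ ≤
        C * 2 ^ (k * m) / 2 ^ (l * (k * (k + 1) / 2)) *
          ∫ x, (∑ h ∈ range (2 ^ m), ‖f h x‖ ^ 2) ^ k *
            ‖bz (fun h => f h x) (2 ^ (m - l)) b‖ ^ (2 * s) ∂μ

/-- module Hold: Hoelder and power means -/
def StHold : Prop :=
  ∀ (n : ℕ) (μ : Measure (E n)), IsFiniteMeasure μ → ∀ (k s N : ℕ), 1 ≤ k → 1 ≤ s → 1 ≤ N →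
    ∀ (f : ℕ → E n → ℂ) (F : E n → ℂ), (∀ j < N, Continuous (f j)) →
      (∀ j < N, ∃ B : ℝ, ∀ x, ‖f j x‖ ≤ B) → Continuous F → (∃ B : ℝ, ∀ x, ‖F x‖ ≤ B) →
      ∫ x, (∑ h ∈ range N, ‖f h x‖ ^ 2) ^ k * ‖F x‖ ^ (2 * s) ∂μ ≤
        ((N : ℝ) ^ (s + k - 1) * ∑ h ∈ range N, ∫ x, ‖f h x‖ ^ (2 * (s + k)) ∂μ) ^
            ((k : ℝ) / (s + k)) *
          (∫ x, ‖F x‖ ^ (2 * (s + k)) ∂μ) ^ ((s : ℝ) / (s + k))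

/-- module Sub: passing to a block of consecutive arcs -/
def StSub : Prop :=
  ∀ (k : ℕ) (A : ℝ) (p m l : ℕ) (D : ℝ), l ≤ m → DecP k A p (2 ^ (m - l)) D →
    ∀ (n : ℕ) (pr : E n →+ E k) (μ : Measure (E n)), IsFiniteMeasure μ → ∀ t r : ℝ, 0 < r →
    Van k A (2 ^ m) pr μ t r → ∀ f : ℕ → E n → ℂ, Fam k A (2 ^ m) pr t r f → ∀ b < 2 ^ l,
      ∫ x, ‖bz (fun h => f h x) (2 ^ (m - l)) b‖ ^ p ∂μ ≤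
        D * ∑ h ∈ Ico (b * 2 ^ (m - l)) ((b + 1) * 2 ^ (m - l)), ∫ x, ‖f h x‖ ^ p ∂μ

/-- module Rec: the recursion (uses StPoint, StOrth, StHold, StSub) -/
def StRec : Prop :=
  ∀ (k q s : ℕ) (A : ℝ), 1 ≤ k → 1 ≤ s → 1 ≤ A → ∃ C : ℝ, 0 < C ∧ ∀ m l : ℕ, q ≤ m → k * l ≤ m →
    ∀ D1 D2 : ℝ, 0 ≤ D1 → 0 ≤ D2 → DecP k A (2 * (s + k)) (2 ^ (m - q)) D1 →
      DecP k A (2 * (s + k)) (2 ^ (m - l)) D2 →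
      DecP k A (2 * (s + k)) (2 ^ m)
        ((4 * (k : ℝ)) ^ (2 * (s + k)) * D1 +
          C * ((2 : ℝ) ^ l) ^ (2 * s - 1) * (2 ^ (k * m) / 2 ^ (l * (k * (k + 1) / 2))) *
            ((2 : ℝ) ^ ((m : ℝ) * (s + k - 1) * k / (s + k))) *
            ((2 : ℝ) ^ ((l : ℝ) * k / (s + k))) * D2 ^ ((s : ℝ) / (s + k)))

/-- module Triv: trivial decoupling constant -/
def StTriv : Prop :=
  ∀ (k : ℕ) (A : ℝ) (p m : ℕ), 1 ≤ p → DecP k A p (2 ^ m) (2 ^ (m * (p - 1)))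

/-- module Num: the numerical induction step -/
def StNum : Prop :=
  ∀ (k s : ℕ) (lam e : ℝ), 1 ≤ k → 1 ≤ s → 0 < lam → (k : ℝ) ^ 4 ≤ lam * (2 * (s + k)) →
    e = 2 * (s + k) - 1 - (k : ℝ) * (k + 1) / 2 + lam → ∀ C0 : ℝ, 0 < C0 →
    ∃ C1 : ℝ, 0 < C1 ∧ ∀ C ≥ C1, ∀ m l : ℕ, k * l ≤ m → m < k * (l + 1) →
      C0 * ((2 : ℝ) ^ l) ^ (2 * s - 1) * (2 ^ (k * m) / 2 ^ (l * (k * (k + 1) / 2))) *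
            ((2 : ℝ) ^ ((m : ℝ) * (s + k - 1) * k / (s + k))) *
            ((2 : ℝ) ^ ((l : ℝ) * k / (s + k))) *
            (C * (2 : ℝ) ^ (e * ((m - l : ℕ) : ℝ))) ^ ((s : ℝ) / (s + k)) ≤
        C / 2 * (2 : ℝ) ^ (e * m)

/-- module Fin: the end of the chapter (uses StRec, StTriv, StNum) -/
def StFin : Prop := ∀ k : ℕ, 1 ≤ k → MC k

end

end Pool.Agent.Helper57.MCd
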