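import Pool.Agent.Helper57.MCd.St

/-!
# Chapter MC of MP_795d31_lc: closure lemmas for trigonometric sums
-/

set_option autoImplicit false

open MeasureTheory Filter Topology Finset

namespace Pool.Agent.Helper57.MCd

open Pool.Agent.Helper19.RP

noncomputable section

theorem ch_add (x y : ℝ) : ch (x + y) = ch x * ch y := by
  unfold ch
  rw [← Complex.exp_add]
  congr 1
  push_cast
  ring

theorem ch_zero : ch 0 = 1 := by simp [ch]

theorem ch_norm (x : ℝ) : ‖ch x‖ = 1 := by
  unfold ch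
  have : (2 * Real.pi * x * Complex.I : ℂ) = ((2 * Real.pi * x : ℝ) : ℂ) * Complex.I := by
    push_cast; ring
  rw [this, Complex.norm_exp_ofReal_mul_I]

theorem ch_conj (x : ℝ) : (starRingEnd ℂ) (ch x) = ch (-x) := by
  unfold ch
  rw [← Complex.exp_conj]
  congr 1
  have h2 : (starRingEnd ℂ) 2 = 2 := Complex.conj_ofNat 2
  simp only [map_mul, Complex.conj_ofReal, Complex.conj_I, h2]
  push_cast
  ring

theorem ch_cont : Continuous ch := by
  unfold ch
  fun_prop

theorem dt_add_right {k : ℕ} (x y z : E k) : dt x (y + z) = dt x y + dt x z := by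
  unfold dt
  rw [← Finset.sum_add_distrib]
  refine Finset.sum_congr rfl fun i _ => ?_
  simp only [Pi.add_apply]
  ring

theorem dt_neg_right {k : ℕ} (x y : E k) : dt x (-y) = - dt x y := by
  unfold dt
  rw [← Finset.sum_neg_distrib]
  refine Finset.sum_congr rfl fun i _ => ?_
  simp only [Pi.neg_apply]
  ring

theorem dt_zero_right {k : ℕ} (x : E k) : dt x 0 = 0 := by
  simp [dt]

theorem dt_cont {k : ℕ} (z : E k) : Continuous (fun x : E k => dt x z) := by
  unfold dt
  fun_prop

variable {n : ℕ}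

/-- the character with frequency `z` -/
def chf (z : E n) : E n → ℂ := fun x => ch (dt x z)

theorem TS_iff {S : Set (E n)} {f : E n → ℂ} :
    TS S f ↔ f ∈ Submodule.span ℂ ((fun z : E n => chf z) '' S) := by
  classical
  constructor
  · rintro ⟨s, c, hs, hf⟩
    have : f = ∑ z ∈ s, c z • chf z := by
      funext x
      rw [hf x, Finset.sum_apply]
      rfl
    rw [this]
    refine Submodule.sum_mem _ fun z hz => Submodule.smul_mem _ _ (Submodule.subset_span ?_)
    exact ⟨z, hs hz, rfl⟩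
  · intro h
    induction h using Submodule.span_induction with
    | mem f hf =>
      obtain ⟨z, hz, rfl⟩ := hf
      exact ⟨{z}, fun _ => 1, by simpa using hz, fun x => by simp [chf]⟩
    | zero => exact ⟨∅, fun _ => 0, by simp, fun x => by simp⟩
    | add f g _ _ hf hg =>
      obtain ⟨s, c, hs, hf⟩ := hf
      obtain ⟨t, d, ht, hg⟩ := hg
      refine ⟨s ∪ t, fun z => (if z ∈ s then c z else 0) + (if z ∈ t then d z else 0), ?_, ?_⟩
      · intro z hz
        rcases Finset.mem_union.1 (Finset.mem_coe.1 hz) with h | h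
        · exact hs h
        · exact ht h
      · intro x
        simp only [Pi.add_apply, hf x, hg x, add_mul, Finset.sum_add_distrib, ite_mul, zero_mul]
        congr 1
        · rw [← Finset.sum_filter, Finset.filter_mem_eq_inter,
            Finset.inter_eq_right.2 Finset.subset_union_left]
        · rw [← Finset.sum_filter, Finset.filter_mem_eq_inter,
            Finset.inter_eq_right.2 Finset.subset_union_right]
    | smul a f _ hf =>
      obtain ⟨s, c, hs, hf⟩ := hf
      refine ⟨s, fun z => a * c z, hs, fun x => ?_⟩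
      simp only [Pi.smul_apply, smul_eq_mul, hf x, Finset.mul_sum, mul_assoc]

theorem TS_mono {S T : Set (E n)} {f : E n → ℂ} (h : TS S f) (hST : S ⊆ T) : TS T f := by
  obtain ⟨s, c, hs, hf⟩ := h
  exact ⟨s, c, hs.trans hST, hf⟩

theorem TS_zero (S : Set (E n)) : TS S (fun _ => 0) :=
  ⟨∅, fun _ => 0, by simp, fun x => by simp⟩

theorem TS_add {S : Set (E n)} {f g : E n → ℂ} (hf : TS S f) (hg : TS S g) :
    TS S (fun x => f x + g x) := by
  rw [TS_iff] at *
  exact Submodule.add_mem _ hf hg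

theorem TS_smul {S : Set (E n)} {f : E n → ℂ} (a : ℂ) (hf : TS S f) :
    TS S (fun x => a * f x) := by
  rw [TS_iff] at *
  exact Submodule.smul_mem _ a hf

theorem TS_sum {ι : Type*} {S : Set (E n)} (s : Finset ι) {f : ι → E n → ℂ}
    (hf : ∀ i ∈ s, TS S (f i)) : TS S (fun x => ∑ i ∈ s, f i x) := by
  simp only [TS_iff] at *
  have h := Submodule.sum_mem _ hf
  convert h using 1
  funext x
  rw [Finset.sum_apply]

theorem TS_one : TS ({0} : Set (E n)) (fun _ => 1) :=
  ⟨{0}, fun _ => 1, by simp, fun x => by simp [dt_zero_right, ch_zero]⟩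

theorem TS_mul {S T U : Set (E n)} {f g : E n → ℂ} (hf : TS S f) (hg : TS T g)
    (hU : ∀ x ∈ S, ∀ y ∈ T, x + y ∈ U) : TS U (fun x => f x * g x) := by
  obtain ⟨s, c, hs, hf⟩ := hf
  obtain ⟨t, d, ht, hg⟩ := hg
  have h : (fun x => f x * g x) =
      fun x => ∑ p ∈ s ×ˢ t, (c p.1 * d p.2) * ch (dt x (p.1 + p.2)) := by
    funext x
    rw [hf x, hg x, Finset.sum_mul_sum, ← Finset.sum_product']
    refine Finset.sum_congr rfl fun p _ => ?_
    rw [dt_add_right, ch_add]
    ring
  rw [h]
  refine TS_sum _ fun p hp => TS_smul _ ?_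
  rw [Finset.mem_product] at hp
  exact ⟨{p.1 + p.2}, fun _ => 1, by simpa using hU _ (hs hp.1) _ (ht hp.2), fun x => by simp⟩

theorem TS_conj {S U : Set (E n)} {f : E n → ℂ} (hf : TS S f)
    (hU : ∀ x ∈ S, -x ∈ U) : TS U (fun x => (starRingEnd ℂ) (f x)) := by
  obtain ⟨s, c, hs, hf⟩ := hf
  have h : (fun x => (starRingEnd ℂ) (f x)) =
      fun x => ∑ z ∈ s, (starRingEnd ℂ) (c z) * ch (dt x (-z)) := by
    funext x
    rw [hf x, map_sum]
    refine Finset.sum_congr rfl fun z _ => ?_
    rw [map_mul, ch_conj, dt_neg_right]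
  rw [h]
  refine TS_sum _ fun z hz => TS_smul _ ?_
  exact ⟨{-z}, fun _ => 1, by simpa using hU _ (hs hz), fun x => by simp⟩

/-- sums of elements of given sets -/
def sumSet {k : ℕ} (S : Fin k → Set (E n)) : Set (E n) :=
  {z | ∃ ξ : Fin k → E n, (∀ i, ξ i ∈ S i) ∧ z = ∑ i, ξ i}

theorem TS_prod : ∀ {k : ℕ} {S : Fin k → Set (E n)} {f : Fin k → E n → ℂ},
    (∀ i, TS (S i) (f i)) → TS (sumSet S) (fun x => ∏ i, f i x)
  | 0, S, f, _ => by
    refine TS_mono ?_ (S := {0}) ?_
    · simpa using TS_one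
    · intro z hz
      exact ⟨fun i => i.elim0, fun i => i.elim0, by simpa using hz⟩
  | k + 1, S, f, h => by
    have h1 := TS_prod (k := k) (S := fun i => S i.succ) (f := fun i => f i.succ)
      (fun i => h i.succ)
    have h2 := h 0
    simp only [Fin.prod_univ_succ]
    refine TS_mul h2 h1 ?_
    rintro x hx y ⟨ξ, hξ, rfl⟩
    refine ⟨Fin.cons x ξ, ?_, ?_⟩
    · intro i
      refine Fin.cases ?_ (fun i => ?_) i
      · simpa using hx
      · simpa using hξ i
    · rw [Fin.sum_univ_succ]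
      simp

theorem TS_pow {S : Set (E n)} {f : E n → ℂ} (s : ℕ) (h : TS S f) :
    TS (sumSet (fun _ : Fin s => S)) (fun x => f x ^ s) := by
  have := TS_prod (k := s) (S := fun _ => S) (f := fun _ => f) (fun _ => h)
  simpa using this

theorem TS_cont {S : Set (E n)} {f : E n → ℂ} (h : TS S f) : Continuous f := by
  obtain ⟨s, c, hs, hf⟩ := h
  have : f = fun x => ∑ z ∈ s, c z * ch (dt x z) := funext hf
  rw [this]
  exact continuous_finsetSum _ fun z _ => continuous_const.mul (ch_cont.comp (dt_cont z))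

theorem TS_bdd {S : Set (E n)} {f : E n → ℂ} (h : TS S f) : ∃ B : ℝ, ∀ x, ‖f x‖ ≤ B := by
  obtain ⟨s, c, hs, hf⟩ := h
  refine ⟨∑ z ∈ s, ‖c z‖, fun x => ?_⟩
  rw [hf x]
  refine (norm_sum_le _ _).trans (Finset.sum_le_sum fun z _ => ?_)
  rw [norm_mul, ch_norm, mul_one]

theorem TS_int {S : Set (E n)} {f : E n → ℂ} (h : TS S f) (μ : Measure (E n))
    [IsFiniteMeasure μ] : Integrable f μ := by
  obtain ⟨B, hB⟩ := TS_bdd h
  exact Integrable.of_bound (TS_cont h).aestronglyMeasurable B (Filter.Eventually.of_forall hB)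

theorem TS_integral_zero {S : Set (E n)} {f : E n → ℂ} (h : TS S f) (μ : Measure (E n))
    [IsFiniteMeasure μ] (hS : ∀ z ∈ S, ∫ x, ch (dt x z) ∂μ = 0) : ∫ x, f x ∂μ = 0 := by
  obtain ⟨s, c, hs, hf⟩ := h
  simp only [hf]
  rw [integral_finsetSum]
  · refine Finset.sum_eq_zero fun z hz => ?_
    rw [integral_const_mul, hS z (hs hz), mul_zero]
  · intro z _
    have h1 : TS (Set.univ : Set (E n)) (fun x => c z * ch (dt x z)) :=
      TS_smul _ ⟨{z}, fun _ => 1, by simp, fun x => by simp⟩
    exact TS_int h1 μ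

end

end Pool.Agent.Helper57.MCd
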